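import Mathlib

set_option autoImplicit false
set_option linter.unusedSimpArgs false

namespace Pool.Agent.H48.E15

open Finset

variable {n : ℕ} (G : SimpleGraph (Fin n))

/-- open neighbourhood of a set -/
noncomputable def nb (T : Finset (Fin n)) : Finset (Fin n) := by
  classical
  exact Finset.univ.filter (fun v => ∃ t ∈ T, G.Adj t v)

lemma mem_nb {T : Finset (Fin n)} {v : Fin n} : v ∈ nb G T ↔ ∃ t ∈ T, G.Adj t v := by
  unfold nb; simp

/-- independence -/
def Ind (T : Finset (Fin n)) : Prop := ∀ u ∈ T, ∀ v ∈ T, ¬ G.Adj u v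

/-- the weight of a vertex in the cut of `T` -/
noncomputable def wt (T : Finset (Fin n)) (v : Fin n) : ℤ :=
  1 - (if v ∈ T then 1 else 0) + (if v ∈ nb G T then 1 else 0)

/-- the cut function -/
noncomputable def cc (a : Fin n → ℤ) (T : Finset (Fin n)) : ℤ := ∑ v, a v * wt G T v

variable {G}

lemma wt_of_mem {T : Finset (Fin n)} {v : Fin n} (h : v ∈ T) (h' : v ∉ nb G T) :
    wt G T v = 0 := by simp [wt, h, h']

lemma wt_of_nb {T : Finset (Fin n)} {v : Fin n} (h : v ∉ T) (h' : v ∈ nb G T) :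
    wt G T v = 2 := by simp [wt, h, h']

lemma wt_of_not {T : Finset (Fin n)} {v : Fin n} (h : v ∉ T) (h' : v ∉ nb G T) :
    wt G T v = 1 := by simp [wt, h, h']

lemma wt_nonneg (T : Finset (Fin n)) (v : Fin n) : 0 ≤ wt G T v := by
  unfold wt; split_ifs <;> norm_num

lemma Ind.notMem_nb {T : Finset (Fin n)} (hT : Ind G T) {v : Fin n} (hv : v ∈ T) :
    v ∉ nb G T := by
  intro h
  obtain ⟨t, ht, hadj⟩ := mem_nb G |>.1 h
  exact hT t ht v hv hadj

lemma nb_mono {A B : Finset (Fin n)} (h : A ⊆ B) : nb G A ⊆ nb G B := by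
  intro v hv
  obtain ⟨t, ht, hadj⟩ := mem_nb G |>.1 hv
  exact (mem_nb G).2 ⟨t, h ht, hadj⟩

lemma mem_nb_union {A B : Finset (Fin n)} {v : Fin n} :
    v ∈ nb G (A ∪ B) ↔ v ∈ nb G A ∨ v ∈ nb G B := by
  simp only [mem_nb, mem_union]
  constructor
  · rintro ⟨t, h | h, hadj⟩
    · exact Or.inl ⟨t, h, hadj⟩
    · exact Or.inr ⟨t, h, hadj⟩
  · rintro (⟨t, h, hadj⟩ | ⟨t, h, hadj⟩)
    · exact ⟨t, Or.inl h, hadj⟩
    · exact ⟨t, Or.inr h, hadj⟩

lemma mem_nb_inter {A B : Finset (Fin n)} {v : Fin n} (h : v ∈ nb G (A ∩ B)) :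
    v ∈ nb G A ∧ v ∈ nb G B :=
  ⟨nb_mono inter_subset_left h, nb_mono inter_subset_right h⟩

/-- pointwise submodularity -/
lemma wt_submod (A B : Finset (Fin n)) (v : Fin n) :
    wt G (A ∪ B) v + wt G (A ∩ B) v ≤ wt G A v + wt G B v := by
  unfold wt
  have h1 : v ∈ A ∪ B ↔ v ∈ A ∨ v ∈ B := mem_union
  have h2 : v ∈ A ∩ B ↔ v ∈ A ∧ v ∈ B := mem_inter
  have h3 : v ∈ nb G (A ∪ B) ↔ v ∈ nb G A ∨ v ∈ nb G B := mem_nb_union
  have h4 : v ∈ nb G (A ∩ B) → v ∈ nb G A ∧ v ∈ nb G B := mem_nb_inter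
  by_cases a1 : v ∈ A <;> by_cases a2 : v ∈ B <;> by_cases a3 : v ∈ nb G A <;>
  by_cases a4 : v ∈ nb G B <;> by_cases a5 : v ∈ nb G (A ∩ B) <;>
  simp only [h1, h2, h3, a1, a2, a3, a4, a5, true_or, or_true, or_false, and_true, and_false,
    if_true, if_false] at h4 ⊢ <;> norm_num at *

/-- `J = (T \ N(T')) ∪ (T' \ N(T))` -/
noncomputable def J (G : SimpleGraph (Fin n)) (T T' : Finset (Fin n)) : Finset (Fin n) :=
  (T \ nb G T') ∪ (T' \ nb G T)

lemma nb_J_notMem {T T' : Finset (Fin n)} (hT : Ind G T) (hT' : Ind G T') {v : Fin n}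
    (hv : v ∈ nb G (J G T T')) : v ∉ T ∧ v ∉ T' := by
  obtain ⟨t, ht, hadj⟩ := (mem_nb G).1 hv
  rcases mem_union.1 ht with h | h <;> rw [mem_sdiff] at h
  · refine ⟨fun h' => hT t h.1 v h' hadj, fun h' => h.2 ((mem_nb G).2 ⟨v, h', hadj.symm⟩)⟩
  · refine ⟨fun h' => h.2 ((mem_nb G).2 ⟨v, h', hadj.symm⟩), fun h' => hT' t h.1 v h' hadj⟩

lemma nb_J_sub {T T' : Finset (Fin n)} {v : Fin n}
    (hv : v ∈ nb G (J G T T')) : v ∈ nb G T ∨ v ∈ nb G T' := by
  rcases mem_nb_union.1 hv with h | h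
  · exact Or.inl (nb_mono sdiff_subset h)
  · exact Or.inr (nb_mono sdiff_subset h)

lemma Ind_J {T T' : Finset (Fin n)} (hT : Ind G T) (hT' : Ind G T') : Ind G (J G T T') := by
  intro u hu v hv hadj
  have h1 : v ∈ nb G (J G T T') := (mem_nb G).2 ⟨u, hu, hadj⟩
  have h2 := nb_J_notMem hT hT' h1
  rcases mem_union.1 hv with h | h <;> rw [mem_sdiff] at h
  · exact h2.1 h.1
  · exact h2.2 h.1

/-- pointwise bisubmodularity -/
lemma wt_bisub {T T' : Finset (Fin n)} (hT : Ind G T) (hT' : Ind G T') (v : Fin n) :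
    wt G (T ∩ T') v + wt G (J G T T') v ≤ wt G T v + wt G T' v := by
  unfold wt
  have h1 : v ∈ T ∩ T' ↔ v ∈ T ∧ v ∈ T' := mem_inter
  have h2 : v ∈ J G T T' ↔ (v ∈ T ∧ v ∉ nb G T') ∨ (v ∈ T' ∧ v ∉ nb G T) := by
    unfold J; simp only [mem_union, mem_sdiff]
  have h3 : v ∈ nb G (T ∩ T') → v ∈ nb G T ∧ v ∈ nb G T' := mem_nb_inter
  have h4 : v ∈ nb G (J G T T') → v ∉ T ∧ v ∉ T' := nb_J_notMem hT hT'
  have h5 : v ∈ nb G (J G T T') → v ∈ nb G T ∨ v ∈ nb G T' := nb_J_sub
  have h6 : v ∈ T → v ∉ nb G T := hT.notMem_nb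
  have h7 : v ∈ T' → v ∉ nb G T' := hT'.notMem_nb
  by_cases a1 : v ∈ T <;> by_cases a2 : v ∈ T' <;> by_cases a3 : v ∈ nb G T <;>
  by_cases a4 : v ∈ nb G T' <;> by_cases a5 : v ∈ nb G (T ∩ T') <;>
  by_cases a6 : v ∈ nb G (J G T T') <;>
  simp only [h1, h2, a1, a2, a3, a4, a5, a6, true_or, or_true, or_false, false_or, and_true,
    true_and, and_false, false_and, not_true, not_false_eq_true,
    if_true, if_false, imp_self, imp_false, forall_true_left] at h3 h4 h5 h6 h7 ⊢ <;> norm_num at *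

lemma cc_mono_wt {a : Fin n → ℤ} (ha : ∀ v, 0 ≤ a v) {A B C D : Finset (Fin n)}
    (h : ∀ v, wt G A v + wt G B v ≤ wt G C v + wt G D v) :
    cc G a A + cc G a B ≤ cc G a C + cc G a D := by
  unfold cc
  rw [← sum_add_distrib, ← sum_add_distrib]
  refine sum_le_sum fun v _ => ?_
  have := mul_le_mul_of_nonneg_left (h v) (ha v)
  linarith

lemma cc_submod {a : Fin n → ℤ} (ha : ∀ v, 0 ≤ a v) (A B : Finset (Fin n)) :
    cc G a (A ∪ B) + cc G a (A ∩ B) ≤ cc G a A + cc G a B :=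
  cc_mono_wt ha (wt_submod A B)

lemma cc_bisub {a : Fin n → ℤ} (ha : ∀ v, 0 ≤ a v) {T T' : Finset (Fin n)} (hT : Ind G T)
    (hT' : Ind G T') : cc G a (T ∩ T') + cc G a (J G T T') ≤ cc G a T + cc G a T' :=
  cc_mono_wt ha (wt_bisub hT hT')

/-- the vertices away from the edge `xy` -/
noncomputable def WW (G : SimpleGraph (Fin n)) (x y : Fin n) : Finset (Fin n) := by
  classical
  exact Finset.univ.filter (fun w => w ≠ x ∧ w ≠ y ∧ ¬ G.Adj x w ∧ ¬ G.Adj y w)

lemma mem_WW {x y w : Fin n} :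
    w ∈ WW G x y ↔ w ≠ x ∧ w ≠ y ∧ ¬ G.Adj x w ∧ ¬ G.Adj y w := by
  unfold WW; simp

/-- Lemma A: the `x`-side constraints are governed by sets containing the minimiser. -/
lemma lemmaA {a : Fin n → ℤ} (ha : ∀ v, 0 ≤ a v) {W : Finset (Fin n)} (hW : Ind G W)
    {x : Fin n} (hx : x ∉ nb G W) {T : Finset (Fin n)} (hTW : T ⊆ W)
    (hmin : ∀ T1 ⊆ W, cc G a T ≤ cc G a T1) {T' : Finset (Fin n)} (hT' : Ind G T')
    (hxT' : x ∈ T') :
    ∃ T'', Ind G T'' ∧ x ∈ T'' ∧ T ⊆ T'' ∧ cc G a T'' ≤ cc G a T' := by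
  have hT : Ind G T := fun u hu v hv => hW u (hTW hu) v (hTW hv)
  have hxT : x ∉ nb G T := fun h => hx (nb_mono hTW h)
  have h1 := cc_bisub ha hT hT'
  have h2 := hmin (T ∩ T') (inter_subset_left.trans hTW)
  have h3 := cc_submod (G := G) ha (J G T T') T
  have h4 := hmin (J G T T' ∩ T) (inter_subset_right.trans hTW)
  refine ⟨J G T T' ∪ T, ?_, ?_, subset_union_right, by linarith⟩
  · intro u hu v hv hadj
    rcases mem_union.1 hu with hu | hu <;> rcases mem_union.1 hv with hv | hv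
    · exact Ind_J hT hT' u hu v hv hadj
    · exact (nb_J_notMem hT hT' ((mem_nb G).2 ⟨u, hu, hadj⟩)).1 hv
    · exact (nb_J_notMem hT hT' ((mem_nb G).2 ⟨v, hv, hadj.symm⟩)).1 hu
    · exact hT u hu v hv hadj
  · refine mem_union_left _ (mem_union_right _ (mem_sdiff.2 ⟨hxT', hxT⟩))

/-- Lemma B: the parity lemma. -/
lemma lemmaB {a : Fin n → ℤ} (ha : ∀ v, 0 ≤ a v) {x y : Fin n} (hxy : G.Adj x y)
    (hW : Ind G (WW G x y)) {m : ℤ} {T T' : Finset (Fin n)}
    (hT : Ind G T) (hT' : Ind G T') (hxT : x ∈ T) (hyT' : y ∈ T')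
    (hc : cc G a T ≤ m + 1) (hc' : cc G a T' ≤ m + 1) (hm : Even m) :
    ∃ T'' ⊆ WW G x y, cc G a T'' ≤ m := by
  by_contra hcon
  push Not at hcon
  have hyT : y ∉ T := fun h => hT x hxT y h hxy
  have hxT' : x ∉ T' := fun h => hT' x h y hyT' hxy
  have hynb : y ∈ nb G T := (mem_nb G).2 ⟨x, hxT, hxy⟩
  have hxnb : x ∈ nb G T' := (mem_nb G).2 ⟨y, hyT', hxy.symm⟩
  -- vertices outside both neighbourhoods, different from x, y lie in W
  have hWmem : ∀ v, v ≠ x → v ≠ y → v ∉ nb G T → v ∉ nb G T' → v ∈ WW G x y := by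
    intro v h1 h2 h3 h4
    refine mem_WW.2 ⟨h1, h2, fun h => h3 ((mem_nb G).2 ⟨x, hxT, h⟩),
      fun h => h4 ((mem_nb G).2 ⟨y, hyT', h⟩)⟩
  set M := T ∩ T' with hM
  set Jn := J G T T' with hJn
  have hMW : M ⊆ WW G x y := by
    intro v hv
    have hv' := mem_inter.1 hv
    refine hWmem v ?_ ?_ (hT.notMem_nb hv'.1) (hT'.notMem_nb hv'.2)
    · rintro rfl; exact hxT' hv'.2
    · rintro rfl; exact hyT hv'.1
  have hPW : T \ nb G T' ⊆ WW G x y := by
    intro v hv
    have hv' := mem_sdiff.1 hv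
    refine hWmem v ?_ ?_ (hT.notMem_nb hv'.1) hv'.2
    · rintro rfl; exact hv'.2 hxnb
    · rintro rfl; exact hyT hv'.1
  have hPW' : T' \ nb G T ⊆ WW G x y := by
    intro v hv
    have hv' := mem_sdiff.1 hv
    refine hWmem v ?_ ?_ hv'.2 (hT'.notMem_nb hv'.1)
    · rintro rfl; exact hxT' hv'.1
    · rintro rfl; exact hv'.2 hynb
  have hJW : Jn ⊆ WW G x y := union_subset hPW hPW'
  have hcM := hcon M hMW
  have hcJ := hcon Jn hJW
  have hsum := cc_bisub ha hT hT'
  rw [← hM, ← hJn] at hsum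
  -- equality everywhere
  have heq : cc G a M + cc G a Jn = cc G a T + cc G a T' := by
    apply le_antisymm hsum; omega
  have hzero : ∀ v, a v * (wt G T v + wt G T' v - (wt G M v + wt G Jn v)) = 0 := by
    have hs : ∑ v, a v * (wt G T v + wt G T' v - (wt G M v + wt G Jn v)) = 0 := by
      have : ∑ v, a v * (wt G T v + wt G T' v - (wt G M v + wt G Jn v)) =
          (cc G a T + cc G a T') - (cc G a M + cc G a Jn) := by
        unfold cc
        rw [← sum_add_distrib, ← sum_add_distrib, ← sum_sub_distrib]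
        exact sum_congr rfl fun v _ => by ring
      rw [this, heq, sub_self]
    intro v
    exact (sum_eq_zero_iff_of_nonneg (fun v _ => mul_nonneg (ha v)
      (sub_nonneg.2 (wt_bisub hT hT' v)))).1 hs v (mem_univ v)
  have hpt : ∀ v, a v ≠ 0 → wt G T v + wt G T' v = wt G M v + wt G Jn v := by
    intro v hv
    have := (mul_eq_zero.1 (hzero v)).resolve_left hv
    linarith
  -- membership rules
  have r1 : ∀ v, v ∈ M ↔ v ∈ T ∧ v ∈ T' := fun v => mem_inter
  have r2 : ∀ v, v ∈ Jn ↔ (v ∈ T ∧ v ∉ nb G T') ∨ (v ∈ T' ∧ v ∉ nb G T) := fun v => by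
    rw [hJn]; unfold J; simp only [mem_union, mem_sdiff]
  have r3 : ∀ v, v ∈ nb G M → v ∈ nb G T ∧ v ∈ nb G T' := fun v => mem_nb_inter
  have r4 : ∀ v, v ∈ nb G Jn → v ∉ T ∧ v ∉ T' := fun v => nb_J_notMem hT hT'
  have r5 : ∀ v, v ∈ nb G Jn → v ∈ nb G T ∨ v ∈ nb G T' := fun v => nb_J_sub
  have r6 : ∀ v, v ∈ T → v ∉ nb G T := fun v => hT.notMem_nb
  have r7 : ∀ v, v ∈ T' → v ∉ nb G T' := fun v => hT'.notMem_nb
  -- forced memberships
  have f1 : ∀ v, a v ≠ 0 → v ∈ nb G T → v ∈ nb G T' → v ∈ nb G M ∧ v ∈ nb G Jn := by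
    intro v hv h1 h2
    have h3 : v ∉ T := fun h => r6 v h h1
    have h4 : v ∉ T' := fun h => r7 v h h2
    have := hpt v hv
    unfold wt at this
    simp only [h1, h2, h3, h4, r1 v, r2 v, if_true, if_false, false_and, or_self] at this
    by_cases b1 : v ∈ nb G M <;> by_cases b2 : v ∈ nb G Jn <;> simp [b1, b2] at this ⊢
  have f2 : ∀ v, a v ≠ 0 → v ∈ nb G T → v ∉ T' → v ∉ nb G T' → v ∈ nb G Jn := by
    intro v hv h1 h2 h3
    have h4 : v ∉ T := fun h => r6 v h h1
    have h5 : v ∉ nb G M := fun h => h3 (r3 v h).2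
    have := hpt v hv
    unfold wt at this
    simp only [h1, h2, h3, h4, h5, r1 v, r2 v, if_true, if_false, false_and, or_self] at this
    by_cases b2 : v ∈ nb G Jn <;> simp [b2] at this ⊢
  have f3 : ∀ v, a v ≠ 0 → v ∈ nb G T' → v ∉ T → v ∉ nb G T → v ∈ nb G Jn := by
    intro v hv h1 h2 h3
    have h4 : v ∉ T' := fun h => r7 v h h1
    have h5 : v ∉ nb G M := fun h => h3 (r3 v h).1
    have := hpt v hv
    unfold wt at this
    simp only [h1, h2, h3, h4, h5, r1 v, r2 v, if_true, if_false, false_and, or_self] at this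
    by_cases b2 : v ∈ nb G Jn <;> simp [b2] at this ⊢
  -- the set P
  set P := T \ nb G T' with hP
  set P' := T' \ nb G T with hP'
  have q1 : ∀ v, v ∈ P ↔ v ∈ T ∧ v ∉ nb G T' := fun v => mem_sdiff
  have q1' : ∀ v, v ∈ P' ↔ v ∈ T' ∧ v ∉ nb G T := fun v => mem_sdiff
  have q2 : ∀ v, v ∈ nb G P → v ∈ nb G T ∧ v ∉ T' := by
    intro v hv
    obtain ⟨t, ht, hadj⟩ := (mem_nb G).1 hv
    rw [q1] at ht
    exact ⟨(mem_nb G).2 ⟨t, ht.1, hadj⟩, fun h => ht.2 ((mem_nb G).2 ⟨v, h, hadj.symm⟩)⟩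
  have q2' : ∀ v, v ∈ nb G P' → v ∈ nb G T' ∧ v ∉ T := by
    intro v hv
    obtain ⟨t, ht, hadj⟩ := (mem_nb G).1 hv
    rw [q1'] at ht
    exact ⟨(mem_nb G).2 ⟨t, ht.1, hadj⟩, fun h => ht.2 ((mem_nb G).2 ⟨v, h, hadj.symm⟩)⟩
  have q3 : ∀ v, v ∈ nb G M → v ∈ nb G P := by
    intro v hv
    refine nb_mono ?_ hv
    intro u hu
    rw [r1] at hu
    exact (q1 u).2 ⟨hu.1, r7 u hu.2⟩
  have q3' : ∀ v, v ∈ nb G M → v ∈ nb G P' := by
    intro v hv
    refine nb_mono ?_ hv
    intro u hu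
    rw [r1] at hu
    exact (q1' u).2 ⟨hu.2, r6 u hu.1⟩
  have q4 : ∀ v, v ∈ nb G Jn → v ∈ nb G P ∨ v ∈ nb G P' := fun v hv => mem_nb_union.1 hv
  have q5 : ∀ v, v ∈ nb G P → v ∈ nb G Jn := fun v hv => nb_mono subset_union_left hv
  have q5' : ∀ v, v ∈ nb G P' → v ∈ nb G Jn := fun v hv => nb_mono subset_union_right hv
  have hcP := hcon P hPW
  have hcP' := hcon P' hPW'
  have hPP : cc G a P + cc G a P' = cc G a M + cc G a Jn := by
    unfold cc
    rw [← sum_add_distrib, ← sum_add_distrib]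
    refine sum_congr rfl fun v _ => ?_
    by_cases hv : a v = 0
    · rw [hv]; ring
    have e1 := f1 v hv
    have e2 := r3 v
    have e3 := q3 v
    have e3' := q3' v
    have e4 := q4 v
    have e5 := q5 v
    have e5' := q5' v
    have e6 := r6 v
    have e7 := r7 v
    have e8 := q2 v
    have e8' := q2' v
    have key : wt G P v + wt G P' v = wt G M v + wt G Jn v := by
      unfold wt
      simp only [q1, q1', r1, r2]
      by_cases a1 : v ∈ T <;> by_cases a2 : v ∈ T' <;> by_cases a3 : v ∈ nb G T <;>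
      by_cases a4 : v ∈ nb G T' <;> by_cases a5 : v ∈ nb G M <;>
      by_cases a6 : v ∈ nb G Jn <;> by_cases a7 : v ∈ nb G P <;> by_cases a8 : v ∈ nb G P' <;>
      simp only [a1, a2, a3, a4, a5, a6, a7, a8, true_or, or_true, or_false, false_or, and_true,
        true_and, and_false, false_and, not_true, not_false_eq_true, and_self, or_self,
        if_true, if_false, imp_self, imp_false, forall_true_left, IsEmpty.forall_iff]
        at e1 e2 e3 e3' e4 e5 e5' e6 e7 e8 e8' ⊢ <;> norm_num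
    rw [← mul_add, ← mul_add, key]
  -- parity
  obtain ⟨r, hr⟩ := hm
  have hT1 : cc G a T = m + 1 := by omega
  have hP1 : cc G a P = m + 1 := by omega
  have hJ1 : cc G a Jn = m + 1 := by omega
  have hodd : ∃ v, v ∉ T ∧ v ∉ T' ∧ v ∉ nb G T ∧ v ∉ nb G T' ∧ a v ≠ 0 := by
    by_contra hno
    push Not at hno
    have hev : ∀ v, Even (a v * (wt G T v + wt G P v + wt G Jn v)) := by
      intro v
      by_cases hv : a v = 0
      · rw [hv]; simp
      apply Even.mul_left
      have e0 := hno v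
      have e1 := f1 v hv
      have e2 := r3 v
      have e3 := q3 v
      have e3' := q3' v
      have e4 := q4 v
      have e5 := q5 v
      have e6 := r6 v
      have e7 := r7 v
      have e8 := q2 v
      have e8' := q2' v
      have e9 := f2 v hv
      have e10 := f3 v hv
      have e11 := r4 v
      unfold wt
      simp only [q1, q1', r1, r2]
      by_cases a1 : v ∈ T <;> by_cases a2 : v ∈ T' <;> by_cases a3 : v ∈ nb G T <;>
      by_cases a4 : v ∈ nb G T' <;> by_cases a5 : v ∈ nb G M <;>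
      by_cases a6 : v ∈ nb G Jn <;> by_cases a7 : v ∈ nb G P <;> by_cases a8 : v ∈ nb G P' <;>
      simp only [a1, a2, a3, a4, a5, a6, a7, a8, true_or, or_true, or_false, false_or, and_true,
        true_and, and_false, false_and, not_true, not_false_eq_true, and_self, or_self,
        if_true, if_false, imp_self, imp_false, forall_true_left, IsEmpty.forall_iff, hv]
        at e0 e1 e2 e3 e3' e4 e5 e6 e7 e8 e8' e9 e10 e11 ⊢ <;> decide
    have hsum3 : cc G a T + cc G a P + cc G a Jn =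
        ∑ v, a v * (wt G T v + wt G P v + wt G Jn v) := by
      unfold cc
      rw [← sum_add_distrib, ← sum_add_distrib]
      exact sum_congr rfl fun v _ => by ring
    have hE : Even (cc G a T + cc G a P + cc G a Jn) := by
      rw [hsum3]
      exact Finset.even_sum _ fun v _ => hev v
    rw [hT1, hP1, hJ1] at hE
    obtain ⟨r', hr'⟩ := hE
    omega
  obtain ⟨v, hvT, hvT', hvn, hvn', hav⟩ := hodd
  have hvx : v ≠ x := by rintro rfl; exact hvT hxT
  have hvy : v ≠ y := by rintro rfl; exact hvT' hyT'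
  have hvW : v ∈ WW G x y := hWmem v hvx hvy hvn hvn'
  have hfin := hcon (insert v Jn) (insert_subset hvW hJW)
  have hvJ : v ∉ Jn := by
    rw [r2]; tauto
  have hvnJ : v ∉ nb G Jn := by
    intro h
    rcases r5 v h with h | h
    · exact hvn h
    · exact hvn' h
  have hle : cc G a (insert v Jn) ≤ cc G a Jn - a v := by
    have hrw : cc G a Jn - a v = ∑ u, (a u * wt G Jn u - if u = v then a v else 0) := by
      unfold cc
      rw [sum_sub_distrib]
      simp
    rw [hrw]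
    unfold cc
    refine sum_le_sum fun u _ => ?_
    by_cases huv : u = v
    · subst huv
      rw [if_pos rfl]
      have h1 : wt G (insert u Jn) u = 0 := by
        apply wt_of_mem (mem_insert_self _ _)
        rw [insert_eq, mem_nb_union]
        rintro (h | h)
        · obtain ⟨t, ht, hadj⟩ := (mem_nb G).1 h
          rw [mem_singleton] at ht
          subst ht
          exact G.loopless.irrefl _ hadj
        · exact hvnJ h
      rw [h1, wt_of_not hvJ hvnJ]
      linarith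
    · rw [if_neg huv, sub_zero]
      by_cases hau : a u = 0
      · rw [hau]; simp
      refine mul_le_mul_of_nonneg_left ?_ (ha u)
      have hmem : u ∈ insert v Jn ↔ u ∈ Jn := by
        rw [mem_insert]; tauto
      have hnb : u ∈ nb G (insert v Jn) → u ∈ nb G Jn := by
        intro h
        rw [insert_eq, mem_nb_union] at h
        rcases h with h | h
        · obtain ⟨t, ht, hadj⟩ := (mem_nb G).1 h
          rw [mem_singleton] at ht
          subst ht
          have huT : u ∉ T := fun h => hvn ((mem_nb G).2 ⟨u, h, hadj.symm⟩)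
          have huT' : u ∉ T' := fun h => hvn' ((mem_nb G).2 ⟨u, h, hadj.symm⟩)
          by_cases h1 : u ∈ nb G T <;> by_cases h2 : u ∈ nb G T'
          · exact (f1 u hau h1 h2).2
          · exact f2 u hau h1 huT' h2
          · exact f3 u hau h2 huT h1
          · exfalso
            have hux : u ≠ x := by rintro rfl; exact huT hxT
            have huy : u ≠ y := by rintro rfl; exact huT' hyT'
            exact hW t hvW u (hWmem u hux huy h1 h2) hadj
        · exact h
      unfold wt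
      simp only [hmem]
      by_cases h1 : u ∈ nb G (insert v Jn)
      · simp [h1, hnb h1]
      · simp only [h1, if_false]
        split_ifs <;> norm_num
  have hpos : 0 < a v := lt_of_le_of_ne (ha v) (Ne.symm hav)
  omega

end Pool.Agent.H48.E15
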