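import Pool.Agent.H48.E15.Cuts

set_option autoImplicit false
set_option linter.unusedSimpArgs false

namespace Pool.Agent.H48.E15

open Finset

/-- strong gap-freeness (allowing shared vertices) -/
def Gap {X : Type*} (H : SimpleGraph X) : Prop :=
  ∀ a b c d, H.Adj a b → H.Adj c d → H.Adj a c ∨ H.Adj a d ∨ H.Adj b c ∨ H.Adj b d

lemma oddComp_le {X : Type*} [Finite X] (H : SimpleGraph X) (hgap : Gap H) (k : ℕ)
    (hiso : {x | ∀ y, ¬ H.Adj x y}.ncard ≤ k) (hpar : Even (Nat.card X + k)) :
    H.oddComponents.ncard ≤ k := by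
  classical
  have h1 : H.oddComponents.ncard ≤ k + 1 := by
    by_cases hne : ∃ a b, H.Adj a b
    · obtain ⟨a, b, hab⟩ := hne
      have hsub : H.oddComponents ⊆
          insert (H.connectedComponentMk a) (H.connectedComponentMk '' {x | ∀ y, ¬ H.Adj x y}) := by
        intro c _
        obtain ⟨v, rfl⟩ := c.nonempty_supp
        by_cases hv : ∀ y, ¬ H.Adj v y
        · exact Or.inr ⟨v, hv, rfl⟩
        · push Not at hv
          obtain ⟨w, hvw⟩ := hv
          left
          rw [SimpleGraph.ConnectedComponent.eq]
          rcases hgap v w a b hvw hab with h | h | h | h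
          · exact h.reachable
          · exact h.reachable.trans hab.symm.reachable
          · exact hvw.reachable.trans h.reachable
          · exact hvw.reachable.trans (h.reachable.trans hab.symm.reachable)
      refine (Set.ncard_le_ncard hsub (Set.toFinite _)).trans ?_
      refine (Set.ncard_insert_le _ _).trans ?_
      have := Set.ncard_image_le (f := H.connectedComponentMk)
        (Set.toFinite {x | ∀ y, ¬ H.Adj x y})
      omega
    · push Not at hne
      have hsub : H.oddComponents ⊆
          (H.connectedComponentMk '' {x | ∀ y, ¬ H.Adj x y}) := by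
        intro c _
        obtain ⟨v, rfl⟩ := c.nonempty_supp
        exact ⟨v, fun y => hne v y, rfl⟩
      refine (Set.ncard_le_ncard hsub (Set.toFinite _)).trans ?_
      have := Set.ncard_image_le (f := H.connectedComponentMk)
        (Set.toFinite {x | ∀ y, ¬ H.Adj x y})
      omega
  have h2 := H.odd_ncard_oddComponents
  by_contra hcon
  have h3 : H.oddComponents.ncard = k + 1 := by omega
  rw [h3] at h2
  rcases Nat.even_or_odd (Nat.card X) with h4 | h4
  · have h5 : ¬ Odd (Nat.card X) := Nat.not_odd_iff_even.2 h4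
    rw [← h2, Nat.odd_add_one, not_not] at h5
    rw [Nat.even_add] at hpar
    exact (Nat.not_even_iff_odd.2 h5) (hpar.1 h4)
  · have h5 := h2.2 h4
    rw [Nat.odd_add_one] at h5
    rw [Nat.even_add] at hpar
    exact h5 (by rw [← Nat.not_even_iff_odd, ← hpar, Nat.not_even_iff_odd]; exact h4)

/-- A gap-free graph of even order in which no set isolates more vertices than its size has a
perfect matching. -/
lemma exists_pm {X : Type*} [Finite X] (H : SimpleGraph X) (hgap : Gap H)
    (heven : Even (Nat.card X))
    (hiso : ∀ u : Set X, {x | x ∉ u ∧ ∀ y, H.Adj x y → y ∈ u}.ncard ≤ u.ncard) :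
    ∃ M : H.Subgraph, M.IsPerfectMatching := by
  classical
  rw [SimpleGraph.tutte]
  intro u hu
  unfold SimpleGraph.IsTutteViolator at hu
  refine absurd hu (not_lt.2 ?_)
  refine oddComp_le _ ?_ _ ?_ ?_
  · rintro ⟨a, ha⟩ ⟨b, hb⟩ ⟨c, hc⟩ ⟨d, hd⟩ hab hcd
    simp only [SimpleGraph.Subgraph.verts_top, SimpleGraph.Subgraph.deleteVerts_verts,
      Set.mem_sdiff, Set.mem_univ, true_and] at ha hb hc hd
    simp only [SimpleGraph.Subgraph.coe_adj, SimpleGraph.Subgraph.deleteVerts_adj,
      SimpleGraph.Subgraph.verts_top, Set.mem_univ, true_and,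
      SimpleGraph.Subgraph.top_adj] at hab hcd ⊢
    rcases hgap a b c d hab.2.2 hcd.2.2 with h | h | h | h <;> tauto
  · refine le_trans ?_ (hiso u)
    rw [← Set.ncard_image_of_injective _ Subtype.val_injective]
    refine Set.ncard_le_ncard ?_ (Set.toFinite _)
    rintro _ ⟨⟨x, hx⟩, hx2, rfl⟩
    simp only [SimpleGraph.Subgraph.verts_top, SimpleGraph.Subgraph.deleteVerts_verts,
      Set.mem_sdiff, Set.mem_univ, true_and] at hx
    refine ⟨hx, fun y hy => ?_⟩
    by_contra hyu
    refine hx2 ⟨y, by simpa using hyu⟩ ?_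
    simp [SimpleGraph.Subgraph.coe_adj, SimpleGraph.Subgraph.deleteVerts_adj, hx, hyu, hy]
  · have h1 : Nat.card ((⊤ : H.Subgraph).deleteVerts u).verts + u.ncard = Nat.card X := by
      have : ((⊤ : H.Subgraph).deleteVerts u).verts = uᶜ := by
        ext v; simp
      rw [this]
      have h2 := Set.ncard_add_ncard_compl u
      rw [add_comm] at h2
      exact h2
    rw [h1]
    exact heven

variable {n : ℕ} {G : SimpleGraph (Fin n)}

/-- degree vector of a multiset of pairs -/
noncomputable def DD (s : Multiset (Fin n × Fin n)) : Fin n →₀ ℕ :=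
  (s.map (fun p => Finsupp.single p.1 1 + Finsupp.single p.2 1)).sum

/-- `x^a` is a multiple of a product of `q` edges -/
def Mem (G : SimpleGraph (Fin n)) (q : ℕ) (a : Fin n →₀ ℕ) : Prop :=
  ∃ s : Multiset (Fin n × Fin n), Multiset.card s = q ∧ (∀ p ∈ s, G.Adj p.1 p.2) ∧ DD s ≤ a

/-- From an involution pairing up copies to a multiset of edges. -/
lemma pairing {C : Type*} [DecidableEq C] (π : C → Fin n) (τ : C → C) (q : ℕ) :
    ∀ B : Finset C, (∀ p ∈ B, τ p ∈ B ∧ τ (τ p) = p ∧ G.Adj (π p) (π (τ p))) →
      2 * q ≤ B.card →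
      ∃ s : Multiset (Fin n × Fin n), Multiset.card s = q ∧ (∀ p ∈ s, G.Adj p.1 p.2) ∧
        ∀ v, DD s v ≤ (B.filter (fun p => π p = v)).card := by
  induction q with
  | zero =>
    intro B _ _
    exact ⟨0, by simp, by simp, by simp [DD]⟩
  | succ q ih =>
    intro B hB hcard
    have hne : B.Nonempty := by
      rw [← Finset.card_pos]; omega
    obtain ⟨p, hp⟩ := hne
    obtain ⟨h1, h2, h3⟩ := hB p hp
    have hne : p ≠ τ p := by
      intro h
      rw [← h] at h3
      exact G.loopless.irrefl _ h3
    set B' := (B.erase p).erase (τ p) with hB'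
    have hp' : τ p ∈ B.erase p := mem_erase.2 ⟨hne.symm, h1⟩
    have hcard' : B'.card + 2 = B.card := by
      rw [hB', card_erase_of_mem hp', card_erase_of_mem hp]
      have : 0 < (B.erase p).card := card_pos.2 ⟨_, hp'⟩
      rw [card_erase_of_mem hp] at this
      omega
    obtain ⟨s, hs1, hs2, hs3⟩ := ih B' (by
      intro r hr
      rw [hB', mem_erase, mem_erase] at hr
      obtain ⟨g1, g2, g3⟩ := hB r hr.2.2
      refine ⟨?_, g2, g3⟩
      rw [hB', mem_erase, mem_erase]
      refine ⟨?_, ?_, g1⟩
      · intro h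
        have : τ (τ r) = τ (τ p) := by rw [h]
        rw [g2, h2] at this
        exact hr.2.1 this
      · intro h
        apply hr.1
        rw [← h, g2]) (by omega)
    refine ⟨(π p, π (τ p)) ::ₘ s, by simp [hs1], ?_, ?_⟩
    · intro r hr
      rcases Multiset.mem_cons.1 hr with rfl | hr
      · exact h3
      · exact hs2 r hr
    · intro v
      have e1 : DD ((π p, π (τ p)) ::ₘ s) v =
          (if π p = v then 1 else 0) + (if π (τ p) = v then 1 else 0) + DD s v := by
        simp only [DD, Multiset.map_cons, Multiset.sum_cons, Finsupp.add_apply,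
          Finsupp.single_apply]
      rw [e1]
      have e2 : B = insert p (insert (τ p) B') := by
        rw [hB', insert_erase hp', insert_erase hp]
      have hpB' : p ∉ insert (τ p) B' := by
        rw [hB']; simp [hne]
      have hτB' : τ p ∉ B' := by
        rw [hB']; simp
      have e3 : (B.filter (fun p => π p = v)).card =
          (if π p = v then 1 else 0) + (if π (τ p) = v then 1 else 0) +
            (B'.filter (fun p => π p = v)).card := by
        have := hs3 v
        rw [e2]
        simp only [card_filter]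
        rw [sum_insert hpB', sum_insert hτB']
        ring
      rw [e3]
      have := hs3 v
      omega

/-- The blow-up graph with `d` universal vertices. -/
def BG (G : SimpleGraph (Fin n)) (a : Fin n → ℕ) (d : ℕ) :
    SimpleGraph ((Σ v : Fin n, Fin (a v)) ⊕ Fin d) where
  Adj p p' := match p, p' with
    | .inl p, .inl p' => G.Adj p.1 p'.1
    | .inr i, .inr j => i ≠ j
    | .inl _, .inr _ => True
    | .inr _, .inl _ => True
  symm := ⟨by
    rintro (p | i) (p' | j) h
    · exact G.symm.symm _ _ h
    · trivial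
    · trivial
    · exact Ne.symm h⟩
  loopless := ⟨by
    rintro (p | i) h
    · exact G.loopless.irrefl _ h
    · exact h rfl⟩

lemma BG_gap (hG : Gap G) (a : Fin n → ℕ) (d : ℕ) : Gap (BG G a d) := by
  rintro (p1 | i1) (p2 | i2) (p3 | i3) (p4 | i4) h h'
  case inl.inl.inl.inl => exact hG _ _ _ _ h h'
  all_goals
    simp only [BG] at h h' ⊢
    try tauto
  · by_cases h1 : i1 = i3
    · right; left
      rw [h1]; exact h'
    · exact Or.inl h1

lemma cc_eq (a : Fin n → ℤ) (T : Finset (Fin n)) :
    cc G a T = ∑ v, a v - ∑ v ∈ T, a v + ∑ v ∈ nb G T, a v := by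
  unfold cc wt
  have h1 : ∑ v ∈ T, a v = ∑ v, (if v ∈ T then a v else 0) := by
    rw [← sum_filter]; congr 1; ext v; simp
  have h2 : ∑ v ∈ nb G T, a v = ∑ v, (if v ∈ nb G T then a v else 0) := by
    rw [← sum_filter]; congr 1; ext v; simp
  rw [h1, h2, ← sum_sub_distrib, ← sum_add_distrib]
  refine sum_congr rfl fun v _ => ?_
  split_ifs <;> ring

/-- The Tutte–Berge formula for gap-free graphs: the cut conditions suffice. -/
theorem mem_of_cc (hG : Gap G) (q : ℕ) (a : Fin n →₀ ℕ)
    (h : ∀ T, Ind G T → 2 * (q : ℤ) ≤ cc G (fun v => (a v : ℤ)) T) : Mem G q a := by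
  classical
  have h0 : 2 * q ≤ ∑ v, a v := by
    have h1 := h ∅ (fun u hu => by simp at hu)
    rw [cc_eq] at h1
    have h2 : nb G (∅ : Finset (Fin n)) = ∅ := by
      ext v; rw [mem_nb]; simp
    rw [h2] at h1
    simp only [sum_empty, sub_zero, add_zero] at h1
    exact_mod_cast h1
  set d := ∑ v, a v - 2 * q with hd
  set H := BG G a d with hH
  have hcard : Nat.card ((Σ v : Fin n, Fin (a v)) ⊕ Fin d) = ∑ v, a v + d := by
    simp
  have heven : Even (Nat.card ((Σ v : Fin n, Fin (a v)) ⊕ Fin d)) := by
    rw [hcard]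
    refine ⟨∑ v, a v - q, ?_⟩
    omega
  obtain ⟨M, hM⟩ := exists_pm H (BG_gap hG a d) heven (by
    intro u
    by_cases hz : ∃ i : Fin d, Sum.inr i ∉ u
    · obtain ⟨z, hz⟩ := hz
      have hsub : {x | x ∉ u ∧ ∀ y, H.Adj x y → y ∈ u} ⊆ {Sum.inr z} := by
        rintro x ⟨hx, hx2⟩
        by_contra hne
        apply hz
        apply hx2
        rcases x with p | i
        · trivial
        · intro hi
          apply hne
          rw [hi]; rfl
      by_cases hu : u.ncard = 0
      · rw [Set.ncard_eq_zero (Set.toFinite _)] at hu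
        subst hu
        rw [Set.ncard_empty, Nat.le_zero, Set.ncard_eq_zero (Set.toFinite _)]
        ext x
        simp only [Set.mem_empty_iff_false, iff_false]
        intro hx
        have hxz := hsub hx
        simp only [Set.mem_singleton_iff] at hxz
        subst hxz
        have hall : ∀ y : (Σ v : Fin n, Fin (a v)) ⊕ Fin d, y = Sum.inr z := by
          intro y
          by_contra hne
          have := hx.2 y ?_
          · exact this
          · rcases y with p | i
            · trivial
            · intro hi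
              apply hne
              rw [hi]
        have : Nat.card ((Σ v : Fin n, Fin (a v)) ⊕ Fin d) = 1 := by
          rw [Nat.card_eq_one_iff_exists]
          exact ⟨_, hall⟩
        rw [this] at heven
        exact absurd heven (by decide)
      · refine (Set.ncard_le_ncard hsub (Set.toFinite _)).trans ?_
        rw [Set.ncard_singleton]
        omega
    · push Not at hz
      set I := {x | x ∉ u ∧ ∀ y, H.Adj x y → y ∈ u} with hI
      set T : Finset (Fin n) := univ.filter (fun v => ∃ j : Fin (a v), Sum.inl ⟨v, j⟩ ∈ I) with hT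
      have hTI : Ind G T := by
        intro v1 hv1 v2 hv2 hadj
        simp only [hT, mem_filter, mem_univ, true_and] at hv1 hv2
        obtain ⟨j1, hj1⟩ := hv1
        obtain ⟨j2, hj2⟩ := hv2
        exact hj2.1 (hj1.2 _ hadj)
      have hIsub : I ⊆ ↑((T.sigma (fun v => (univ : Finset (Fin (a v))))).map
          (⟨Sum.inl, Sum.inl_injective⟩ : _ ↪ ((Σ v : Fin n, Fin (a v)) ⊕ Fin d))) := by
        rintro (⟨v, j⟩ | i) hx
        · simp only [coe_map, Function.Embedding.coeFn_mk, Set.mem_image, mem_coe, mem_sigma,
            mem_univ, and_true]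
          refine ⟨⟨v, j⟩, ?_, rfl⟩
          simp only [hT, mem_filter, mem_univ, true_and]
          exact ⟨j, hx⟩
        · exact absurd (hz i) hx.1
      have hIcard : I.ncard ≤ ∑ v ∈ T, a v := by
        refine (Set.ncard_le_ncard hIsub (Set.toFinite _)).trans ?_
        rw [Set.ncard_coe_finset, card_map, card_sigma]
        simp
      have husub : (↑(((nb G T).sigma (fun v => (univ : Finset (Fin (a v))))).map
          (⟨Sum.inl, Sum.inl_injective⟩ : _ ↪ ((Σ v : Fin n, Fin (a v)) ⊕ Fin d)) ∪
          (univ : Finset (Fin d)).map ⟨Sum.inr, Sum.inr_injective⟩) : Set _) ⊆ u := by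
        rintro x hx
        rw [mem_coe, mem_union, mem_map, mem_map] at hx
        rcases hx with ⟨⟨v, j⟩, hp, rfl⟩ | ⟨i, hi, rfl⟩
        · simp only [mem_sigma, mem_univ, and_true] at hp
          obtain ⟨t, ht, hadj⟩ := (mem_nb G).1 hp
          simp only [hT, mem_filter, mem_univ, true_and] at ht
          obtain ⟨j', hj'⟩ := ht
          exact hj'.2 _ hadj
        · exact hz i
      have hucard : ∑ v ∈ nb G T, a v + d ≤ u.ncard := by
        have h1 := Set.ncard_le_ncard husub (Set.toFinite _)
        rw [Set.ncard_coe_finset, card_union_of_disjoint, card_map, card_map, card_sigma] at h1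
        · simpa using h1
        · rw [Finset.disjoint_left]
          intro x hx hx'
          rw [mem_map] at hx hx'
          obtain ⟨_, _, rfl⟩ := hx
          obtain ⟨_, _, h⟩ := hx'
          exact absurd h (by simp)
      have h3 := h T hTI
      rw [cc_eq] at h3
      have h4 : 2 * q + ∑ v ∈ T, a v ≤ ∑ v, a v + ∑ v ∈ nb G T, a v := by
        zify
        linarith
      omega)
  rw [SimpleGraph.Subgraph.isPerfectMatching_iff] at hM
  set B : Finset (Σ v : Fin n, Fin (a v)) :=
    univ.filter (fun p => ∃ p', M.Adj (Sum.inl p) (Sum.inl p')) with hB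
  set τ : (Σ v : Fin n, Fin (a v)) → (Σ v : Fin n, Fin (a v)) := fun p =>
    if hp : ∃ p', M.Adj (Sum.inl p) (Sum.inl p') then hp.choose else p with hτ
  have hτs : ∀ p ∈ B, M.Adj (Sum.inl p) (Sum.inl (τ p)) := by
    intro p hp
    simp only [hB, mem_filter, mem_univ, true_and] at hp
    simp only [hτ, dif_pos hp]
    exact hp.choose_spec
  have huniq : ∀ x y z, M.Adj x y → M.Adj x z → y = z := fun x y z h1 h2 =>
    (hM x).unique h1 h2
  obtain ⟨s, hs1, hs2, hs3⟩ := pairing (G := G) (fun p : (Σ v : Fin n, Fin (a v)) => p.1) τ q B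
    (by
      intro p hp
      have h1 := hτs p hp
      have h2 : τ p ∈ B := by
        simp only [hB, mem_filter, mem_univ, true_and]
        exact ⟨p, h1.symm⟩
      refine ⟨h2, ?_, ?_⟩
      · have h3 := huniq _ _ _ (hτs _ h2) h1.symm
        exact Sum.inl_injective h3
      · have h4 := h1.adj_sub
        exact h4) (by
      have h1 : (univ.filter (fun p : (Σ v : Fin n, Fin (a v)) =>
          ¬ ∃ p', M.Adj (Sum.inl p) (Sum.inl p'))).card ≤ d := by
        have hex : ∀ p : (Σ v : Fin n, Fin (a v)), (¬ ∃ p', M.Adj (Sum.inl p) (Sum.inl p')) →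
            ∃ i : Fin d, M.Adj (Sum.inl p) (Sum.inr i) := by
          intro p hp
          obtain ⟨w, hw, _⟩ := hM (Sum.inl p)
          rcases w with p' | i
          · exact absurd ⟨p', hw⟩ hp
          · exact ⟨i, hw⟩
        by_cases hd0 : Nonempty (Fin d)
        · obtain ⟨i0⟩ := hd0
          set φ : (Σ v : Fin n, Fin (a v)) → Fin d := fun p =>
            if hp : ∃ i : Fin d, M.Adj (Sum.inl p) (Sum.inr i) then hp.choose else i0 with hφ
          have := Finset.card_le_card_of_injOn (s := univ.filter
            (fun p : (Σ v : Fin n, Fin (a v)) => ¬ ∃ p', M.Adj (Sum.inl p) (Sum.inl p')))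
            (t := (univ : Finset (Fin d))) φ (fun _ _ => by simp) (by
              intro p hp p' hp' heq
              simp only [coe_filter, mem_univ, true_and, Set.mem_ofPred_eq] at hp hp'
              have e1 := hex p hp
              have e2 := hex p' hp'
              simp only [hφ, dif_pos e1, dif_pos e2] at heq
              have g1 := e1.choose_spec
              have g2 := e2.choose_spec
              rw [← heq] at g2
              exact Sum.inl_injective (huniq _ _ _ g1.symm g2.symm))
          simpa using this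
        · have : (univ.filter (fun p : (Σ v : Fin n, Fin (a v)) =>
              ¬ ∃ p', M.Adj (Sum.inl p) (Sum.inl p'))) = ∅ := by
            rw [filter_eq_empty_iff]
            intro p _ hp
            obtain ⟨i, _⟩ := hex p hp
            exact hd0 ⟨i⟩
          rw [this]; simp
      have h2 := Finset.card_filter_add_card_filter_not (s := (univ : Finset (Σ v : Fin n, Fin (a v))))
        (fun p => ∃ p', M.Adj (Sum.inl p) (Sum.inl p'))
      have h3 : (univ : Finset (Σ v : Fin n, Fin (a v))).card = ∑ v, a v := by simp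
      rw [h3] at h2
      rw [hB]
      omega)
  refine ⟨s, hs1, hs2, fun v => (hs3 v).trans ?_⟩
  refine (card_le_card (filter_subset_filter _ (subset_univ B))).trans ?_
  have : (univ.filter (fun p : (Σ v : Fin n, Fin (a v)) => p.1 = v)) =
      (univ : Finset (Fin (a v))).map ⟨fun j => ⟨v, j⟩, fun j j' h => by simpa using h⟩ := by
    ext ⟨w, j⟩
    simp only [mem_filter, mem_univ, true_and, mem_map, Function.Embedding.coeFn_mk]
    constructor
    · rintro rfl; exact ⟨j, rfl⟩
    · rintro ⟨j', h1⟩; exact (congrArg Sigma.fst h1).symm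
  rw [this, card_map]
  simp

/-- the cut weight of a degree vector -/
lemma cc_DD (s : Multiset (Fin n × Fin n)) (T : Finset (Fin n)) :
    cc G (fun v => (DD s v : ℤ)) T = (s.map (fun p => wt G T p.1 + wt G T p.2)).sum := by
  induction s using Multiset.induction_on with
  | empty => simp [DD, cc]
  | cons p s ih =>
    rw [Multiset.map_cons, Multiset.sum_cons, ← ih]
    unfold cc
    have : ∀ v, ((DD (p ::ₘ s) v : ℕ) : ℤ) = (if p.1 = v then 1 else 0) +
        (if p.2 = v then 1 else 0) + (DD s v : ℤ) := by
      intro v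
      have : DD (p ::ₘ s) v =
          (if p.1 = v then 1 else 0) + (if p.2 = v then 1 else 0) + DD s v := by
        simp only [DD, Multiset.map_cons, Multiset.sum_cons, Finsupp.add_apply,
          Finsupp.single_apply]
      rw [this]; push_cast; ring
    simp only [this]
    simp only [add_mul, sum_add_distrib, ite_mul, one_mul, zero_mul, sum_ite_eq, mem_univ, if_true]

lemma wt_edge {T : Finset (Fin n)} (hT : Ind G T) {u v : Fin n} (h : G.Adj u v) :
    2 ≤ wt G T u + wt G T v := by
  by_cases hu : u ∈ T
  · have hv : v ∈ nb G T := (mem_nb G).2 ⟨u, hu, h⟩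
    have hv' : v ∉ T := fun hv' => hT u hu v hv' h
    rw [wt_of_nb hv' hv]
    have := wt_nonneg (G := G) T u
    linarith
  · by_cases hv : v ∈ T
    · have hu' : u ∈ nb G T := (mem_nb G).2 ⟨v, hv, h.symm⟩
      rw [wt_of_nb hu hu']
      have := wt_nonneg (G := G) T v
      linarith
    · have h1 : 1 ≤ wt G T u := by unfold wt; simp only [hu, if_false]; split_ifs <;> norm_num
      have h2 : 1 ≤ wt G T v := by unfold wt; simp only [hv, if_false]; split_ifs <;> norm_num
      linarith

lemma wt_edge3 {T : Finset (Fin n)} {x y : Fin n} (hx : x ∉ T) (hy : y ∉ T)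
    (h : x ∈ nb G T ∨ y ∈ nb G T) : 3 ≤ wt G T x + wt G T y := by
  have h1 : 1 ≤ wt G T x := by unfold wt; simp only [hx, if_false]; split_ifs <;> norm_num
  have h2 : 1 ≤ wt G T y := by unfold wt; simp only [hy, if_false]; split_ifs <;> norm_num
  rcases h with h | h
  · rw [wt_of_nb hx h]; linarith
  · rw [wt_of_nb hy h]; linarith

lemma cc_mono_a {a a' : Fin n → ℤ} (h : ∀ v, a v ≤ a' v) (T : Finset (Fin n)) :
    cc G a T ≤ cc G a' T := by
  unfold cc
  exact sum_le_sum fun v _ => mul_le_mul_of_nonneg_right (h v) (wt_nonneg T v)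

/-- necessity of the cut conditions, with a gain for every far edge -/
lemma cc_ge {T : Finset (Fin n)} (hT : Ind G T) (s : Multiset (Fin n × Fin n))
    (hs : ∀ p ∈ s, G.Adj p.1 p.2) :
    2 * (Multiset.card s : ℤ) ≤ cc G (fun v => (DD s v : ℤ)) T := by
  rw [cc_DD]
  induction s using Multiset.induction_on with
  | empty => simp
  | cons p s ih =>
    rw [Multiset.map_cons, Multiset.sum_cons, Multiset.card_cons]
    have h1 := ih (fun r hr => hs r (Multiset.mem_cons_of_mem hr))
    have h2 := wt_edge hT (hs p (Multiset.mem_cons_self p s))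
    push_cast
    linarith

lemma cc_ge_far {T : Finset (Fin n)} (hT : Ind G T) (s : Multiset (Fin n × Fin n))
    (hs : ∀ p ∈ s, G.Adj p.1 p.2) (e : Fin n × Fin n) (h1 : e.1 ∉ T) (h2 : e.2 ∉ T)
    (h3 : e.1 ∈ nb G T ∨ e.2 ∈ nb G T) :
    2 * (Multiset.card s : ℤ) + Multiset.count e s ≤ cc G (fun v => (DD s v : ℤ)) T := by
  rw [cc_DD]
  induction s using Multiset.induction_on with
  | empty => simp
  | cons p s ih =>
    rw [Multiset.map_cons, Multiset.sum_cons, Multiset.card_cons]
    have g1 := ih (fun r hr => hs r (Multiset.mem_cons_of_mem hr))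
    by_cases hpe : e = p
    · subst hpe
      rw [Multiset.count_cons_self]
      have g2 := wt_edge3 h1 h2 h3
      push_cast
      linarith
    · rw [Multiset.count_cons_of_ne hpe]
      have g2 := wt_edge hT (hs p (Multiset.mem_cons_self p s))
      push_cast
      linarith

lemma Mem.cc {q : ℕ} {a : Fin n →₀ ℕ} (h : Mem G q a) {T : Finset (Fin n)} (hT : Ind G T) :
    2 * (q : ℤ) ≤ cc G (fun v => (a v : ℤ)) T := by
  obtain ⟨s, hs1, hs2, hs3⟩ := h
  rw [← hs1]
  refine (cc_ge hT s hs2).trans (cc_mono_a (fun v => ?_) T)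
  exact_mod_cast hs3 v

end Pool.Agent.H48.E15
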