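import Pool.Agent.H48.E15.Local
import Pool.Agent.H48.E15.Match

set_option autoImplicit false
set_option linter.unusedSimpArgs false

namespace Pool.Agent.H48.E15

open Finset MvPolynomial

variable {n : ℕ} {G : SimpleGraph (Fin n)} {K : Type} [Field K]

/-- indicator vector -/
noncomputable def ind (F : Finset (Fin n)) : Fin n →₀ ℕ := ∑ v ∈ F, Finsupp.single v 1

lemma ind_apply (F : Finset (Fin n)) (v : Fin n) : ind F v = if v ∈ F then 1 else 0 := by
  unfold ind
  rw [Finsupp.finsetSum_apply]
  simp [Finsupp.single_apply]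

lemma ind_insert {F : Finset (Fin n)} {t : Fin n} (h : t ∉ F) :
    ind (insert t F) = ind F + Finsupp.single t 1 := by
  unfold ind
  rw [sum_insert h, add_comm]

lemma ind_le_iff {F : Finset (Fin n)} {b : Fin n →₀ ℕ} : ind F ≤ b ↔ ∀ v ∈ F, 1 ≤ b v := by
  constructor
  · intro h v hv
    have := h v
    rwa [ind_apply, if_pos hv] at this
  · intro h v
    rw [ind_apply]
    split_ifs with hv
    · exact h v hv
    · exact Nat.zero_le _

/-- the upper Koszul complex of `I^q` in degree `b` -/
def KK (G : SimpleGraph (Fin n)) (q : ℕ) (b : Fin n →₀ ℕ) : Set (Finset (Fin n)) :=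
  {F | (∀ v ∈ F, 1 ≤ b v) ∧ Mem G q (b - ind F)}

lemma Mem.mono {q : ℕ} {a a' : Fin n →₀ ℕ} (h : Mem G q a) (ha : a ≤ a') : Mem G q a' := by
  obtain ⟨s, h1, h2, h3⟩ := h
  exact ⟨s, h1, h2, h3.trans ha⟩

lemma ind_mono {A B : Finset (Fin n)} (h : A ⊆ B) : ind A ≤ ind B := by
  intro v
  rw [ind_apply, ind_apply]
  by_cases hv : v ∈ A
  · rw [if_pos hv, if_pos (h hv)]
  · rw [if_neg hv]; exact Nat.zero_le _

lemma KK_down {q : ℕ} {b : Fin n →₀ ℕ} {A B : Finset (Fin n)} (h : A ⊆ B)
    (hB : B ∈ KK G q b) : A ∈ KK G q b :=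
  ⟨fun v hv => hB.1 v (h hv), hB.2.mono (tsub_le_tsub_left (ind_mono h) b)⟩

lemma sub_ind_cast {b : Fin n →₀ ℕ} {F : Finset (Fin n)} (h : ∀ v ∈ F, 1 ≤ b v) (v : Fin n) :
    (((b - ind F) v : ℕ) : ℤ) = aF (fun v => (b v : ℤ)) F v := by
  unfold aF
  rw [Finsupp.tsub_apply, ind_apply]
  by_cases hv : v ∈ F
  · rw [if_pos hv, if_pos hv]
    have := h v hv
    push_cast [Nat.cast_sub this]
    ring
  · rw [if_neg hv, if_neg hv]; simp

lemma wt_le_two (T : Finset (Fin n)) (v : Fin n) : wt G T v ≤ 2 := by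
  unfold wt; split_ifs <;> norm_num

/-- For large `q` the upper Koszul complexes of `I^q` have no homology in low sizes. -/
theorem van_KK (hG : Gap G) (q : ℕ) (hq : n * n * (2 * n) < q) (b : Fin n →₀ ℕ) :
    Van K (∑ v, (b v : ℤ) - 2 * (q : ℤ)) (KK G q b) := by
  classical
  by_cases hne : ∃ F, F ∈ KK G q b
  swap
  · exact Van.empty fun F hF => hne ⟨F, hF⟩
  obtain ⟨F0, hF0⟩ := hne
  obtain ⟨s, hs1, hs2, hs3⟩ := hF0.2.mono (tsub_le_self : b - ind F0 ≤ b)
  -- pigeonhole
  obtain ⟨e, he⟩ : ∃ e, 2 * n < Multiset.count e s := by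
    by_contra hcon
    push Not at hcon
    have h1 : ∑ e ∈ (univ : Finset (Fin n × Fin n)), Multiset.count e s = Multiset.card s :=
      Multiset.sum_count_eq_card (fun a _ => mem_univ a)
    have h2 : ∑ e ∈ (univ : Finset (Fin n × Fin n)), Multiset.count e s ≤
        ∑ _e ∈ (univ : Finset (Fin n × Fin n)), 2 * n := sum_le_sum fun e _ => hcon e
    rw [sum_const, card_univ, Fintype.card_prod, Fintype.card_fin, smul_eq_mul] at h2
    omega
  have hes : e ∈ s := Multiset.count_pos.1 (by omega)
  have hadj := hs2 e hes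
  obtain ⟨x, y⟩ := e
  simp only at hadj he
  have hDD : ∀ p ∈ s, 1 ≤ DD s p.1 ∧ 1 ≤ DD s p.2 := by
    intro p hp
    obtain ⟨s', rfl⟩ := Multiset.exists_cons_of_mem hp
    have h1 : DD (p ::ₘ s') = (Finsupp.single p.1 1 + Finsupp.single p.2 1) + DD s' := by
      simp [DD]
    rw [h1]
    simp only [Finsupp.add_apply, Finsupp.single_apply]
    simp only [if_true]
    omega
  have L : Loc G (fun v => (b v : ℤ)) x y := by
    refine ⟨fun v => by positivity, ?_, ?_, hadj, ?_⟩
    · have h1 := (hDD _ hes).1.trans (hs3 x)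
      exact_mod_cast h1
    · have h1 := (hDD _ hes).2.trans (hs3 y)
      exact_mod_cast h1
    · intro u hu v hv huv
      rw [mem_WW] at hu hv
      rcases hG x y u v hadj huv with h | h | h | h
      · exact hu.2.2.1 h
      · exact hv.2.2.1 h
      · exact hu.2.2.2 h
      · exact hv.2.2.2 h
  have hKL : KK G q b = LL G (fun v => (b v : ℤ)) x y (2 * (q : ℤ)) := by
    ext F
    constructor
    · rintro ⟨h1, h2⟩
      have h3 : ∀ T, Ind G T → 2 * (q : ℤ) ≤ cF G (fun v => (b v : ℤ)) F T := by
        intro T hT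
        rw [cF_eq]
        have h4 := h2.cc hT
        have h5 : (fun v => (((b - ind F) v : ℕ) : ℤ)) = aF (fun v => (b v : ℤ)) F :=
          funext fun v => sub_ind_cast h1 v
        rwa [h5] at h4
      refine ⟨fun v hv => ?_, fun T hT => h3 T (L.indSub hT),
        fun T hT _ => h3 T hT, fun T hT _ => h3 T hT⟩
      have := h1 v hv
      show (1 : ℤ) ≤ (b v : ℤ)
      exact_mod_cast this
    · rintro ⟨h1, h2, h3, h4⟩
      have h1' : ∀ v ∈ F, 1 ≤ b v := fun v hv => by
        have : (1 : ℤ) ≤ (b v : ℤ) := h1 v hv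
        exact_mod_cast this
      refine ⟨h1', mem_of_cc hG q _ ?_⟩
      intro T hT
      have h5 : (fun v => (((b - ind F) v : ℕ) : ℤ)) = aF (fun v => (b v : ℤ)) F :=
        funext fun v => sub_ind_cast h1' v
      rw [h5, ← cF_eq]
      by_cases hx : x ∈ T
      · exact h3 T hT hx
      by_cases hy : y ∈ T
      · exact h4 T hT hy
      by_cases hTW : T ⊆ WW G x y
      · exact h2 T hTW
      rw [not_subset] at hTW
      obtain ⟨t, htT, htW⟩ := hTW
      have htx : t ≠ x := by rintro rfl; exact hx htT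
      have hty : t ≠ y := by rintro rfl; exact hy htT
      have hnb : x ∈ nb G T ∨ y ∈ nb G T := by
        by_contra hcon
        rw [not_or] at hcon
        refine htW (mem_WW.2 ⟨htx, hty, fun h => hcon.1 ((mem_nb G).2 ⟨t, htT, h.symm⟩),
          fun h => hcon.2 ((mem_nb G).2 ⟨t, htT, h.symm⟩)⟩)
      have h6 := cc_ge_far hT s hs2 (x, y) hx hy hnb
      have h7 : cc G (fun v => (DD s v : ℤ)) T ≤ cc G (fun v => (b v : ℤ)) T :=
        cc_mono_a (fun v => by exact_mod_cast hs3 v) T
      have h8 : ∑ v ∈ F, wt G T v ≤ 2 * n := by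
        have h9 : ∑ v ∈ F, wt G T v ≤ ∑ v ∈ F, 2 := sum_le_sum fun v _ => wt_le_two T v
        rw [sum_const, nsmul_eq_mul] at h9
        have h10 : (F.card : ℤ) ≤ n := by
          have := card_le_univ F
          rw [Fintype.card_fin] at this
          exact_mod_cast this
        linarith
      have h9 : ((2 * n : ℕ) : ℤ) < Multiset.count (x, y) s := by exact_mod_cast he
      rw [hs1] at h6
      unfold cF
      push_cast at h9
      linarith
  rw [hKL]
  exact L.van_LL ⟨(q : ℤ), by ring⟩

/-! ### The ideal side -/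

/-- the edge ideal -/
noncomputable def edgeI (K : Type) [Field K] (G : SimpleGraph (Fin n)) :
    Ideal (MvPolynomial (Fin n) K) :=
  Ideal.span {m : MvPolynomial (Fin n) K | ∃ a b, G.Adj a b ∧ m = X a * X b}

lemma edgeI_pow (q : ℕ) : (edgeI K G) ^ q = Ideal.span ((fun s => monomial s (1 : K)) ''
    {m | ∃ s : Multiset (Fin n × Fin n), Multiset.card s = q ∧ (∀ p ∈ s, G.Adj p.1 p.2) ∧
      DD s = m}) := by
  induction q with
  | zero =>
    rw [pow_zero]
    symm
    rw [Ideal.one_eq_top, Ideal.eq_top_iff_one]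
    refine Ideal.subset_span ⟨0, ⟨0, by simp, by simp, by simp [DD]⟩, ?_⟩
    simp
  | succ q ih =>
    rw [pow_succ, ih]
    unfold edgeI
    rw [Ideal.span_mul_span']
    congr 1
    ext f
    rw [Set.mem_mul]
    constructor
    · rintro ⟨_, ⟨_, ⟨s, h1, h2, rfl⟩, rfl⟩, _, ⟨a, c, hac, rfl⟩, rfl⟩
      refine ⟨_, ⟨(a, c) ::ₘ s, by simp [h1], ?_, rfl⟩, ?_⟩
      · intro p hp
        rcases Multiset.mem_cons.1 hp with rfl | hp
        · exact hac
        · exact h2 p hp
      · simp only [DD, Multiset.map_cons, Multiset.sum_cons, X, monomial_mul, mul_one]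
        rw [add_comm]
    · rintro ⟨_, ⟨s, h1, h2, rfl⟩, rfl⟩
      obtain ⟨p, hp⟩ : ∃ p, p ∈ s := Multiset.card_pos_iff_exists_mem.1 (by omega)
      obtain ⟨s', rfl⟩ := Multiset.exists_cons_of_mem hp
      refine ⟨monomial (DD s') 1, ⟨_, ⟨s', ?_, ?_, rfl⟩, rfl⟩, X p.1 * X p.2,
        ⟨p.1, p.2, h2 p hp, rfl⟩, ?_⟩
      · rw [Multiset.card_cons] at h1; omega
      · exact fun r hr => h2 r (Multiset.mem_cons_of_mem hr)
      · simp only [DD, Multiset.map_cons, Multiset.sum_cons, X, monomial_mul, mul_one]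
        rw [add_comm]

lemma mem_edgeI_pow {q : ℕ} {f : MvPolynomial (Fin n) K} :
    f ∈ (edgeI K G) ^ q ↔ ∀ m ∈ f.support, Mem G q m := by
  rw [edgeI_pow, mem_ideal_span_monomial_image]
  refine forall₂_congr fun m _ => ?_
  constructor
  · rintro ⟨_, ⟨s, h1, h2, rfl⟩, h3⟩
    exact ⟨s, h1, h2, h3⟩
  · rintro ⟨s, h1, h2, h3⟩
    exact ⟨_, ⟨s, h1, h2, rfl⟩, h3⟩

/-- The frozen statement, with an explicit bound. -/
theorem main (hG : Gap G) (q : ℕ) (hq : n * n * (2 * n) < q) (i d : ℕ) (hd : 2 * q < d)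
    (f : Finset (Fin n) → MvPolynomial (Fin n) K)
    (hf1 : ∀ T : Finset (Fin n), T.card ≠ i → f T = 0)
    (hf2 : ∀ T : Finset (Fin n), f T ∈ (edgeI K G) ^ q ∧ (f T).IsHomogeneous d)
    (hf3 : ∀ S : Finset (Fin n),
      ∑ t ∈ Finset.univ \ S,
        (-1 : MvPolynomial (Fin n) K) ^ (S.filter (· < t)).card * X t * f (insert t S) = 0) :
    ∃ g : Finset (Fin n) → MvPolynomial (Fin n) K,
      (∀ U : Finset (Fin n), U.card ≠ i + 1 → g U = 0) ∧
      (∀ U : Finset (Fin n), g U ∈ (edgeI K G) ^ q ∧ (g U).IsHomogeneous (d - 1)) ∧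
      (∀ T : Finset (Fin n),
        f T = ∑ t ∈ Finset.univ \ T,
          (-1 : MvPolynomial (Fin n) K) ^ (T.filter (· < t)).card * X t * g (insert t T)) := by
  classical
  -- multigraded pieces
  set φ : (Fin n →₀ ℕ) → Finset (Fin n) → K := fun b T =>
    if ind T ≤ b then coeff (b - ind T) (f T) else 0 with hφ
  have hsign : ∀ (t : Fin n) (S : Finset (Fin n)) (p : MvPolynomial (Fin n) K)
      (m : Fin n →₀ ℕ),
      coeff m ((-1 : MvPolynomial (Fin n) K) ^ (S.filter (· < t)).card * X t * p) =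
        sg K t S * (if t ∈ m.support then coeff (m - Finsupp.single t 1) p else 0) := by
    intro t S p m
    have h1 : (-1 : MvPolynomial (Fin n) K) ^ (S.filter (· < t)).card =
        C ((-1 : K) ^ (S.filter (· < t)).card) := by simp
    rw [h1, mul_assoc, coeff_C_mul, coeff_X_mul']
    rfl
  have hφsupp : ∀ b T, φ b T ≠ 0 → T ∈ KK G q b ∧ T.card = i := by
    intro b T hT
    simp only [hφ] at hT
    by_cases h1 : ind T ≤ b
    · rw [if_pos h1] at hT
      refine ⟨⟨ind_le_iff.1 h1, ?_⟩, ?_⟩
      · exact mem_edgeI_pow.1 (hf2 T).1 _ (mem_support_iff.2 hT)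
      · by_contra hc
        rw [hf1 T hc] at hT
        simp at hT
    · rw [if_neg h1] at hT
      exact absurd rfl hT
  have hφcyc : ∀ b, ∀ S ∈ KK G q b, bd (φ b) S = 0 := by
    intro b S hS
    have h1 := congrArg (coeff (b - ind S)) (hf3 S)
    rw [coeff_sum, coeff_zero] at h1
    rw [← h1]
    unfold bd
    refine sum_congr rfl fun t ht => ?_
    have htS : t ∉ S := by simpa using ht
    rw [hsign]
    congr 1
    simp only [hφ]
    have e1 : (b - ind S) t = b t := by
      rw [Finsupp.tsub_apply, ind_apply, if_neg htS, Nat.sub_zero]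
    by_cases h2 : ind (insert t S) ≤ b
    · rw [if_pos h2, if_pos, ind_insert htS, tsub_add_eq_tsub_tsub]
      rw [Finsupp.mem_support_iff, e1]
      have := ind_le_iff.1 h2 t (mem_insert_self _ _)
      omega
    · rw [if_neg h2, if_neg]
      rw [Finsupp.mem_support_iff, e1, not_not]
      by_contra h3
      apply h2
      rw [ind_le_iff]
      intro v hv
      rcases mem_insert.1 hv with rfl | hv
      · omega
      · exact hS.1 v hv
  have hex : ∀ b : Fin n →₀ ℕ, ∑ v, b v = d + i → ∃ g : Finset (Fin n) → K,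
      (∀ U, g U ≠ 0 → U ∈ KK G q b ∧ U.card = i + 1) ∧ ∀ T, bd g T = φ b T := by
    intro b hb
    obtain ⟨g, hg1, hg2⟩ := van_KK (K := K) hG q hq b i (by
      have : (∑ v, (b v : ℤ)) = d + i := by exact_mod_cast hb
      rw [this]
      have : (2 * q : ℤ) < d := by exact_mod_cast hd
      linarith) (φ b) (hφsupp b) (hφcyc b)
    refine ⟨g, hg1, fun T => ?_⟩
    by_cases hT : T ∈ KK G q b
    · exact hg2 T hT
    · have h1 : φ b T = 0 := by
        by_contra h
        exact hT (hφsupp b T h).1
      rw [h1]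
      refine bd_eq_zero fun t _ => ?_
      by_contra h
      exact hT (KK_down (subset_insert t T) (hg1 _ h).1)
  choose! ψ hψ1 hψ2 using hex
  set Bs : Finset (Fin n →₀ ℕ) := Finset.finsuppAntidiag univ (d + i) with hBs
  have hmemB : ∀ b, b ∈ Bs ↔ ∑ v, b v = d + i := by
    intro b
    rw [hBs, mem_finsuppAntidiag]
    simp
  set g : Finset (Fin n) → MvPolynomial (Fin n) K := fun U =>
    ∑ b ∈ Bs, if ind U ≤ b then monomial (b - ind U) (ψ b U) else 0 with hg
  have hcoeff : ∀ U m, coeff m (g U) = if m + ind U ∈ Bs then ψ (m + ind U) U else 0 := by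
    intro U m
    simp only [hg, coeff_sum]
    by_cases hm : m + ind U ∈ Bs
    · rw [if_pos hm, sum_eq_single (m + ind U)]
      · rw [if_pos le_add_self, add_tsub_cancel_right, coeff_monomial, if_pos rfl]
      · intro b _ hb
        by_cases h1 : ind U ≤ b
        · rw [if_pos h1, coeff_monomial, if_neg]
          intro h2
          apply hb
          rw [← h2, tsub_add_cancel_of_le h1]
        · rw [if_neg h1, coeff_zero]
      · intro h; exact absurd hm h
    · rw [if_neg hm]
      refine sum_eq_zero fun b hb => ?_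
      by_cases h1 : ind U ≤ b
      · rw [if_pos h1, coeff_monomial, if_neg]
        intro h2
        apply hm
        rw [← h2, tsub_add_cancel_of_le h1]
        exact hb
      · rw [if_neg h1, coeff_zero]
  have hcoeff0 : ∀ U m, coeff m (g U) ≠ 0 → (∑ v, (m + ind U) v = d + i) ∧
      U ∈ KK G q (m + ind U) ∧ U.card = i + 1 := by
    intro U m h
    rw [hcoeff] at h
    by_cases hm : m + ind U ∈ Bs
    · rw [if_pos hm] at h
      have h1 := (hmemB _).1 hm
      exact ⟨h1, hψ1 _ h1 U h⟩
    · rw [if_neg hm] at h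
      exact absurd rfl h
  have hsumind : ∀ U : Finset (Fin n), ∑ v, ind U v = U.card := by
    intro U
    simp [ind_apply]
  refine ⟨g, ?_, ?_, ?_⟩
  · intro U hU
    ext m
    rw [coeff_zero]
    by_contra h
    exact hU (hcoeff0 U m h).2.2
  · intro U
    refine ⟨?_, ?_⟩
    · rw [mem_edgeI_pow]
      intro m hm
      have h := hcoeff0 U m (mem_support_iff.1 hm)
      have h2 := h.2.1.2
      rwa [add_tsub_cancel_right] at h2
    · intro m hm
      have h := hcoeff0 U m hm
      have h1 := h.1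
      simp only [Finsupp.add_apply, sum_add_distrib, hsumind] at h1
      have h2 : Finsupp.weight 1 m = ∑ v, m v := by
        rw [Finsupp.weight_apply, Finsupp.sum_fintype] <;> simp
      rw [h2]
      omega
  · intro T
    ext m
    rw [coeff_sum]
    have h1 : ∀ t ∈ Finset.univ \ T,
        coeff m ((-1 : MvPolynomial (Fin n) K) ^ (T.filter (· < t)).card * X t *
          g (insert t T)) = sg K t T *
          (if m + ind T ∈ Bs then ψ (m + ind T) (insert t T) else 0) := by
      intro t ht
      have htT : t ∉ T := by simpa using ht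
      rw [hsign]
      congr 1
      by_cases h2 : t ∈ m.support
      · rw [if_pos h2, hcoeff]
        have h3 : m - Finsupp.single t 1 + ind (insert t T) = m + ind T := by
          rw [ind_insert htT, add_comm (ind T), ← add_assoc, tsub_add_cancel_of_le]
          intro v
          rw [Finsupp.single_apply]
          by_cases hv : t = v
          · subst hv
            rw [if_pos rfl]
            rw [Finsupp.mem_support_iff] at h2
            omega
          · rw [if_neg hv]; exact Nat.zero_le _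
        rw [h3]
      · rw [if_neg h2]
        by_cases h3 : m + ind T ∈ Bs
        · rw [if_pos h3]
          by_contra h4
          have h5 := (hψ1 _ ((hmemB _).1 h3) _ (Ne.symm h4)).1.1 t (mem_insert_self _ _)
          rw [Finsupp.add_apply, ind_apply, if_neg htT, add_zero] at h5
          rw [Finsupp.mem_support_iff, not_not] at h2
          omega
        · rw [if_neg h3]
    rw [sum_congr rfl h1]
    by_cases h3 : m + ind T ∈ Bs
    · have h4 := hψ2 _ ((hmemB _).1 h3) T
      simp only [if_pos h3]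
      unfold bd at h4
      rw [h4]
      simp only [hφ]
      rw [if_pos le_add_self, add_tsub_cancel_right]
    · simp only [if_neg h3, mul_zero, sum_const_zero]
      by_contra h4
      apply h3
      rw [hmemB]
      have h5 := (hf2 T).2 h4
      have h2 : Finsupp.weight 1 m = ∑ v, m v := by
        rw [Finsupp.weight_apply, Finsupp.sum_fintype] <;> simp
      rw [h2] at h5
      have h6 : T.card = i := by
        by_contra hc
        rw [hf1 T hc] at h4
        simp at h4
      simp only [Finsupp.add_apply, sum_add_distrib, hsumind, h5, h6]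

end Pool.Agent.H48.E15
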