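import Mathlib

set_option autoImplicit false

namespace Pool.Agent.H48.E15

open Finset

variable {n : ℕ} {K : Type} [Field K]

/-- The Koszul sign. -/
noncomputable def sg (K : Type) [Field K] {n : ℕ} (t : Fin n) (S : Finset (Fin n)) : K :=
  (-1) ^ (S.filter (· < t)).card

/-- The Koszul (simplicial) boundary. -/
noncomputable def bd (g : Finset (Fin n) → K) (S : Finset (Fin n)) : K :=
  ∑ t ∈ Finset.univ \ S, sg K t S * g (insert t S)

lemma sg_mul_self (t : Fin n) (S : Finset (Fin n)) : sg K t S * sg K t S = 1 := by
  unfold sg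
  rw [← pow_add, ← two_mul, pow_mul]
  simp

lemma sg_insert_lt {t t' : Fin n} {S : Finset (Fin n)} (ht : t ∉ S) (h : t < t') :
    sg K t' (insert t S) = - sg K t' S := by
  unfold sg
  rw [filter_insert, if_pos h, card_insert_of_notMem (by simp [ht]), pow_succ]
  ring

lemma sg_insert_gt {t t' : Fin n} {S : Finset (Fin n)} (h : t' < t) :
    sg K t' (insert t S) = sg K t' S := by
  unfold sg
  rw [filter_insert, if_neg (not_lt.2 h.le)]

lemma sg_anti {t t' : Fin n} {S : Finset (Fin n)} (hne : t ≠ t') (ht : t ∉ S) (ht' : t' ∉ S) :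
    sg K t S * sg K t' (insert t S) = - (sg K t' S * sg K t (insert t' S)) := by
  rcases lt_or_gt_of_ne hne with h | h
  · rw [sg_insert_lt ht h, sg_insert_gt h]; ring
  · rw [sg_insert_gt h, sg_insert_lt ht' h]; ring

lemma sg_anti' {t t' : Fin n} {S : Finset (Fin n)} (hne : t ≠ t') (ht : t ∉ S) (ht' : t' ∉ S) :
    sg K t (insert t' S) * sg K t' (insert t S) = - (sg K t' S * sg K t S) := by
  rcases lt_or_gt_of_ne hne with h | h
  · rw [sg_insert_lt ht h, sg_insert_gt h]; ring
  · rw [sg_insert_gt h, sg_insert_lt ht' h]; ring

lemma bd_add (f g : Finset (Fin n) → K) (S : Finset (Fin n)) :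
    bd (fun T => f T + g T) S = bd f S + bd g S := by
  unfold bd
  rw [← sum_add_distrib]
  exact sum_congr rfl fun t _ => by ring

lemma bd_sub (f g : Finset (Fin n) → K) (S : Finset (Fin n)) :
    bd (fun T => f T - g T) S = bd f S - bd g S := by
  unfold bd
  rw [← sum_sub_distrib]
  exact sum_congr rfl fun t _ => by ring

lemma bd_zero (S : Finset (Fin n)) : bd (fun _ => (0 : K)) S = 0 := by
  unfold bd; simp

lemma bd_congr {f g : Finset (Fin n) → K} {S : Finset (Fin n)}
    (h : ∀ t, t ∉ S → f (insert t S) = g (insert t S)) : bd f S = bd g S := by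
  unfold bd
  refine sum_congr rfl fun t ht => ?_
  rw [h t (by simpa using ht)]

lemma bd_eq_zero {f : Finset (Fin n) → K} {S : Finset (Fin n)}
    (h : ∀ t, t ∉ S → f (insert t S) = 0) : bd f S = 0 := by
  unfold bd
  refine sum_eq_zero fun t ht => ?_
  rw [h t (by simpa using ht), mul_zero]

lemma bd_bd (g : Finset (Fin n) → K) (S : Finset (Fin n)) : bd (bd g) S = 0 := by
  unfold bd
  simp_rw [mul_sum]
  rw [sum_sigma']
  refine Finset.sum_involution (fun p _ => ⟨p.2, p.1⟩) ?_ ?_ ?_ ?_
  · rintro ⟨t, t'⟩ hp
    simp only [mem_sigma, mem_sdiff, mem_univ, true_and, mem_insert, not_or] at hp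
    obtain ⟨h1, h2, h3⟩ := hp
    simp only
    rw [insert_comm t' t S, ← mul_assoc, ← mul_assoc, sg_anti (Ne.symm h2) h1 h3]
    ring
  · rintro ⟨t, t'⟩ hp _ heq
    simp only [mem_sigma, mem_sdiff, mem_univ, true_and, mem_insert, not_or] at hp
    simp only [Sigma.mk.injEq, heq_eq_eq] at heq
    exact hp.2.1 heq.1
  · rintro ⟨t, t'⟩ hp
    simp only [mem_sigma, mem_sdiff, mem_univ, true_and, mem_insert, not_or] at hp ⊢
    exact ⟨hp.2.2, fun h => hp.2.1 h.symm, hp.1⟩
  · rintro ⟨t, t'⟩ hp
    rfl

/-- `Van K s 𝓕`: the chain complex spanned by the family `𝓕` has no homology in sizes `< s`. -/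
def Van (K : Type) [Field K] {n : ℕ} (s : ℤ) (𝓕 : Set (Finset (Fin n))) : Prop :=
  ∀ i : ℕ, (i : ℤ) < s → ∀ f : Finset (Fin n) → K,
    (∀ T, f T ≠ 0 → T ∈ 𝓕 ∧ T.card = i) → (∀ S ∈ 𝓕, bd f S = 0) →
    ∃ g : Finset (Fin n) → K, (∀ U, g U ≠ 0 → U ∈ 𝓕 ∧ U.card = i + 1) ∧
      ∀ T ∈ 𝓕, bd g T = f T

/-- order-convexity of a family of sets -/
def Conv (𝓕 : Set (Finset (Fin n))) : Prop :=
  ∀ A B C, A ⊆ B → B ⊆ C → A ∈ 𝓕 → C ∈ 𝓕 → B ∈ 𝓕

lemma Van.mono {s s' : ℤ} {𝓕 : Set (Finset (Fin n))} (h : Van K s 𝓕) (hs : s' ≤ s) :
    Van K s' 𝓕 := fun i hi => h i (lt_of_lt_of_le hi hs)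

lemma Van.of_card {s : ℤ} {𝓕 : Set (Finset (Fin n))} (h : ∀ T ∈ 𝓕, s ≤ T.card) :
    Van K s 𝓕 := by
  intro i hi f hf _
  have hf0 : ∀ T, f T = 0 := by
    intro T
    by_contra h0
    obtain ⟨h1, h2⟩ := hf T h0
    have := h T h1
    rw [h2] at this
    omega
  refine ⟨fun _ => 0, fun U hU => absurd rfl hU, fun T _ => ?_⟩
  rw [bd_zero, hf0]

lemma Van.empty {s : ℤ} {𝓕 : Set (Finset (Fin n))} (h : ∀ T, T ∉ 𝓕) :
    Van K s 𝓕 := Van.of_card fun T hT => absurd hT (h T)

lemma Van.toggle {s : ℤ} {𝓕 : Set (Finset (Fin n))} (w : Fin n)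
    (h : ∀ F, w ∉ F → (F ∈ 𝓕 ↔ insert w F ∈ 𝓕)) : Van K s 𝓕 := by
  classical
  intro i _ f hf hcyc
  refine ⟨fun U => if w ∈ U then sg K w (U.erase w) * f (U.erase w) else 0, ?_, ?_⟩
  · intro U hU
    by_cases hw : w ∈ U
    · simp only [hw, if_true] at hU
      have h0 : f (U.erase w) ≠ 0 := fun h0 => hU (by rw [h0, mul_zero])
      obtain ⟨h1, h2⟩ := hf _ h0
      refine ⟨?_, ?_⟩
      · have := (h (U.erase w) (by simp)).1 h1
        rwa [insert_erase hw] at this
      · rw [card_erase_of_mem hw] at h2
        have : 0 < U.card := card_pos.2 ⟨w, hw⟩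
        omega
    · simp [hw] at hU
  · intro T hT
    by_cases hw : w ∈ T
    · -- T = insert w T'
      obtain ⟨T', hwT', rfl⟩ : ∃ T', w ∉ T' ∧ T = insert w T' :=
        ⟨T.erase w, by simp, (insert_erase hw).symm⟩
      have hT' : T' ∈ 𝓕 := (h T' hwT').2 hT
      have hc := hcyc T' hT'
      unfold bd at hc ⊢
      have hsplit : (Finset.univ \ T') = insert w (Finset.univ \ insert w T') := by
        ext v
        simp only [mem_sdiff, mem_univ, true_and, mem_insert, not_or]
        by_cases hv : v = w
        · subst hv; simp [hwT']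
        · simp [hv]
      rw [hsplit, sum_insert (by simp)] at hc
      have hterm : ∀ t ∈ Finset.univ \ insert w T',
          sg K t (insert w T') * (if w ∈ insert t (insert w T') then
            sg K w ((insert t (insert w T')).erase w) * f ((insert t (insert w T')).erase w) else 0)
          = - sg K w T' * (sg K t T' * f (insert t T')) := by
        intro t ht
        simp only [mem_sdiff, mem_univ, true_and, mem_insert, not_or] at ht
        have hin : w ∈ insert t (insert w T') := by simp
        rw [if_pos hin]
        have her : (insert t (insert w T')).erase w = insert t T' := by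
          rw [insert_comm, erase_insert]
          simp only [mem_insert, not_or]
          exact ⟨fun h => ht.1 h.symm, hwT'⟩
        rw [her, ← mul_assoc, sg_anti' ht.1 ht.2 hwT']
        ring
      rw [sum_congr rfl hterm, ← mul_sum]
      have h2 : ∑ t ∈ Finset.univ \ insert w T', sg K t T' * f (insert t T')
          = - (sg K w T' * f (insert w T')) := by
        linear_combination hc
      rw [h2]
      have h3 := sg_mul_self (K := K) w T'
      linear_combination (f (insert w T')) * h3
    · unfold bd
      rw [sum_eq_single w]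
      · simp only
        rw [if_pos (mem_insert_self w T), erase_insert hw, ← mul_assoc, sg_mul_self, one_mul]
      · intro t ht htw
        simp only
        rw [if_neg, mul_zero]
        simp only [mem_insert, not_or]
        exact ⟨fun h => htw h.symm, hw⟩
      · intro hw'
        exact absurd (by simp [hw]) hw'

lemma Van.union {s : ℤ} {𝓕 𝓐 : Set (Finset (Fin n))} (hconv : Conv 𝓕) (hsub : 𝓐 ⊆ 𝓕)
    (hdown : ∀ A B, A ⊆ B → A ∈ 𝓕 → B ∈ 𝓐 → A ∈ 𝓐) (h0 : Van K s 𝓐)
    (h1 : Van K s (𝓕 \ 𝓐)) : Van K s 𝓕 := by
  classical
  intro i hi f hf hcyc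
  set f1 : Finset (Fin n) → K := fun T => if T ∈ 𝓕 \ 𝓐 then f T else 0 with hf1
  have hnot : ∀ S ∈ 𝓕 \ 𝓐, ∀ t, insert t S ∉ 𝓐 := fun S hS t ht =>
    hS.2 (hdown _ _ (subset_insert t S) hS.1 ht)
  obtain ⟨g1, hg1, hg1'⟩ := h1 i hi f1 (by
    intro T hT
    by_cases hm : T ∈ 𝓕 \ 𝓐
    · simp only [hf1, hm, if_true] at hT
      exact ⟨hm, (hf T hT).2⟩
    · exact absurd (by simp only [hf1]; rw [if_neg hm]) hT) (by
    intro S hS
    rw [← hcyc S hS.1]
    refine bd_congr fun t ht => ?_
    simp only [hf1]
    by_cases hm : insert t S ∈ 𝓕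
    · rw [if_pos ⟨hm, hnot S hS t⟩]
    · rw [if_neg (fun h => hm h.1)]
      by_contra hne
      exact hm (hf _ (Ne.symm hne)).1)
  have hg1z : ∀ T, T ∉ 𝓕 → (∀ S ∈ 𝓕, S ⊆ T → bd g1 T = 0) := by
    intro T hT S hS hST
    refine bd_eq_zero fun t ht => ?_
    by_contra hne
    exact hT (hconv S T (insert t T) hST (subset_insert t T) hS (hg1 _ hne).1.1)
  set f0 : Finset (Fin n) → K := fun T => if T ∈ 𝓐 then f T - bd g1 T else 0 with hf0
  have hf0' : ∀ T, (∃ S ∈ 𝓕, S ⊆ T) → f0 T = f T - bd g1 T := by
    rintro T ⟨S, hS, hST⟩
    simp only [hf0]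
    by_cases hT : T ∈ 𝓐
    · rw [if_pos hT]
    · rw [if_neg hT]
      by_cases hT' : T ∈ 𝓕
      · rw [hg1' T ⟨hT', hT⟩]
        simp only [hf1]
        rw [if_pos ⟨hT', hT⟩, sub_self]
      · rw [hg1z T hT' S hS hST]
        have : f T = 0 := by
          by_contra hne
          exact hT' (hf _ hne).1
        rw [this, sub_zero]
  obtain ⟨g0, hg0, hg0'⟩ := h0 i hi f0 (by
    intro T hT
    by_cases hm : T ∈ 𝓐
    · refine ⟨hm, ?_⟩
      simp only [hf0, hm, if_true] at hT
      by_contra hcard
      apply hT
      have h1 : f T = 0 := by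
        by_contra hne
        exact hcard (hf _ hne).2
      have h2 : bd g1 T = 0 := by
        refine bd_eq_zero fun t ht => ?_
        by_contra hne
        have := (hg1 _ hne).2
        rw [card_insert_of_notMem ht] at this
        omega
      rw [h1, h2, sub_zero]
    · simp [hf0, hm] at hT) (by
    intro S hS
    have : bd f0 S = bd (fun T => f T - bd g1 T) S := by
      refine bd_congr fun t ht => ?_
      exact hf0' _ ⟨S, hsub hS, subset_insert t S⟩
    rw [this, bd_sub, bd_bd, hcyc S (hsub hS), sub_zero])
  refine ⟨fun U => g0 U + g1 U, ?_, ?_⟩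
  · intro U hU
    by_cases h : g0 U = 0
    · have h' : g1 U ≠ 0 := fun h' => hU (by simp only [h, h', add_zero])
      exact ⟨(hg1 U h').1.1, (hg1 U h').2⟩
    · exact ⟨hsub (hg0 U h).1, (hg0 U h).2⟩
  · intro T hT
    rw [bd_add]
    by_cases hm : T ∈ 𝓐
    · rw [hg0' T hm, hf0' T ⟨T, hT, subset_rfl⟩]
      ring
    · rw [hg1' T ⟨hT, hm⟩]
      have h1 : f1 T = f T := by
        simp only [hf1]
        rw [if_pos ⟨hT, hm⟩]
      have h2 : bd g0 T = 0 := by
        refine bd_eq_zero fun t ht => ?_
        by_contra hne
        exact hnot T ⟨hT, hm⟩ t (hg0 _ hne).1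
      rw [h1, h2, zero_add]

/-- Peeling off the classes of a rank decreasing classification. -/
theorem Van.classes {α : Type*} (cl : Finset (Fin n) → α) (ρ : α → ℤ) {s : ℤ}
    (N : ℕ) : ∀ (𝓕 : Set (Finset (Fin n))), 𝓕.ncard ≤ N → Conv 𝓕 →
    (∀ A ∈ 𝓕, ∀ B ∈ 𝓕, A ⊆ B → cl A = cl B ∨ ρ (cl A) < ρ (cl B)) →
    (∀ c, Van K s {F | F ∈ 𝓕 ∧ cl F = c}) → Van K s 𝓕 := by
  induction N with
  | zero =>
    intro 𝓕 hN _ _ _
    refine Van.empty fun T hT => ?_
    have : 𝓕 = ∅ := (Set.ncard_eq_zero (Set.toFinite _)).1 (by omega)
    rw [this] at hT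
    exact hT
  | succ N ih =>
    intro 𝓕 hN hconv hmon hc
    rcases Set.eq_empty_or_nonempty 𝓕 with rfl | hne
    · exact Van.empty fun T hT => hT
    obtain ⟨F0, hF0, hmin⟩ := Set.exists_min_image 𝓕 (fun F => ρ (cl F)) (Set.toFinite _) hne
    set 𝓐 : Set (Finset (Fin n)) := {F | F ∈ 𝓕 ∧ cl F = cl F0} with h𝓐
    have hdown : ∀ A B, A ⊆ B → A ∈ 𝓕 → B ∈ 𝓐 → A ∈ 𝓐 := by
      intro A B hAB hA hB
      rcases hmon A hA B hB.1 hAB with h | h
      · exact ⟨hA, h.trans hB.2⟩
      · rw [hB.2] at h
        exact absurd (hmin A hA) (not_le.2 h)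
    refine Van.union (𝓐 := 𝓐) hconv (fun F hF => hF.1) hdown (hc _) ?_
    refine ih _ ?_ ?_ ?_ ?_
    · have h1 : F0 ∈ 𝓐 := ⟨hF0, rfl⟩
      have h2 : (𝓕 \ 𝓐).ncard < 𝓕.ncard := by
        apply Set.ncard_lt_ncard _ (Set.toFinite _)
        refine ⟨Set.sdiff_subset, fun h => ?_⟩
        exact (h hF0).2 h1
      omega
    · intro A B C hAB hBC hA hC
      refine ⟨hconv A B C hAB hBC hA.1 hC.1, fun hB => ?_⟩
      exact hA.2 (hdown A B hAB hA.1 hB)
    · intro A hA B hB hAB
      exact hmon A hA.1 B hB.1 hAB
    · intro c
      by_cases hcc : c = cl F0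
      · refine Van.empty ?_
        rintro T ⟨hT, hT2⟩
        exact hT.2 ⟨hT.1, hT2.trans hcc⟩
      · have : {F | F ∈ 𝓕 \ 𝓐 ∧ cl F = c} = {F | F ∈ 𝓕 ∧ cl F = c} := by
          ext F
          constructor
          · rintro ⟨h1, h2⟩
            exact ⟨h1.1, h2⟩
          · rintro ⟨h1, h2⟩
            exact ⟨⟨h1, fun h => hcc (h2.symm.trans h.2)⟩, h2⟩
        rw [this]
        exact hc c

/-- the shifted polymatroid family -/
def PM (Y E : Finset (Fin n)) (h : Finset (Fin n) → ℤ) : Set (Finset (Fin n)) :=
  {F | Y ⊆ F ∧ F ⊆ Y ∪ E ∧ ∀ A ⊆ E, ((F ∩ A).card : ℤ) ≤ h A}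

lemma PM_conv (Y E : Finset (Fin n)) (h : Finset (Fin n) → ℤ) : Conv (PM Y E h) := by
  intro A B C hAB hBC hA hC
  refine ⟨hA.1.trans hAB, hBC.trans hC.2.1, fun D hD => le_trans ?_ (hC.2.2 D hD)⟩
  exact_mod_cast card_le_card (inter_subset_inter_right hBC)

theorem Van.polymatroid (E : Finset (Fin n)) : ∀ (Y : Finset (Fin n)) (h : Finset (Fin n) → ℤ),
    Disjoint Y E → h ∅ ≤ 0 →
    (∀ A ⊆ E, ∀ B ⊆ E, h (A ∪ B) + h (A ∩ B) ≤ h A + h B) →
    Van K ((Y.card : ℤ) + h E) (PM Y E h) := by
  classical
  induction E using Finset.induction_on with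
  | empty =>
    intro Y h _ h0 _
    refine Van.of_card fun T hT => ?_
    have : Y.card ≤ T.card := card_le_card hT.1
    have : (Y.card : ℤ) ≤ T.card := by exact_mod_cast this
    linarith
  | insert w E' hw ih =>
    intro Y h hdis h0 hsub
    have hwY : w ∉ Y := fun hwY => (Finset.disjoint_left.1 hdis hwY) (mem_insert_self w E')
    have hdis' : Disjoint Y E' := hdis.mono_right (subset_insert w E')
    by_cases hcase : h E' < h (insert w E')
    · refine Van.toggle w fun F hwF => ?_
      constructor
      · rintro ⟨h1, h2, h3⟩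
        refine ⟨h1.trans (subset_insert w F), ?_, ?_⟩
        · intro v hv
          rcases mem_insert.1 hv with rfl | hv
          · simp
          · exact h2 hv
        · intro A hA
          by_cases hwA : w ∈ A
          · have hA' : A.erase w ⊆ E' := by
              intro v hv
              rw [mem_erase] at hv
              exact (mem_insert.1 (hA hv.2)).resolve_left hv.1
            have hAE : A ∪ E' = insert w E' := by
              ext v
              simp only [mem_union, mem_insert]
              constructor
              · rintro (hv | hv)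
                · exact mem_insert.1 (hA hv)
                · exact Or.inr hv
              · rintro (rfl | hv)
                · exact Or.inl hwA
                · exact Or.inr hv
            have hAE' : A ∩ E' = A.erase w := by
              ext v
              simp only [mem_inter, mem_erase]
              constructor
              · rintro ⟨h1, h2⟩
                exact ⟨fun h => hw (h ▸ h2), h1⟩
              · rintro ⟨h1, h2⟩
                exact ⟨h2, hA' (mem_erase.2 ⟨h1, h2⟩)⟩
            have hs := hsub A hA E' (subset_insert w E')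
            rw [hAE, hAE'] at hs
            have h4 := h3 (A.erase w) (hA'.trans (subset_insert w E'))
            have h5 : (insert w F ∩ A).card ≤ (F ∩ A.erase w).card + 1 := by
              have : insert w F ∩ A ⊆ insert w (F ∩ A.erase w) := by
                intro v hv
                simp only [mem_inter, mem_insert, mem_erase] at hv ⊢
                by_cases hvw : v = w
                · exact Or.inl hvw
                · exact Or.inr ⟨hv.1.resolve_left hvw, hvw, hv.2⟩
              exact (card_le_card this).trans (card_insert_le _ _)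
            have h6 : ((insert w F ∩ A).card : ℤ) ≤ (F ∩ A.erase w).card + 1 := by
              exact_mod_cast h5
            linarith
          · have : insert w F ∩ A = F ∩ A := by
              ext v
              simp only [mem_inter, mem_insert]
              constructor
              · rintro ⟨h1 | h1, h2⟩
                · exact absurd (h1 ▸ h2) hwA
                · exact ⟨h1, h2⟩
              · rintro ⟨h1, h2⟩
                exact ⟨Or.inr h1, h2⟩
            rw [this]
            exact h3 A hA
      · rintro ⟨h1, h2, h3⟩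
        refine ⟨?_, (subset_insert w F).trans h2, fun A hA => le_trans ?_ (h3 A hA)⟩
        · intro v hv
          refine (mem_insert.1 (h1 hv)).resolve_left ?_
          rintro rfl
          exact hwY hv
        · exact_mod_cast card_le_card (inter_subset_inter_right (subset_insert w F))
    · push Not at hcase
      set 𝓐 : Set (Finset (Fin n)) := {F | F ∈ PM Y (insert w E') h ∧ w ∉ F} with h𝓐
      have e0 : 𝓐 = PM Y E' (fun A => min (h A) (h (insert w A))) := by
        ext F
        constructor
        · rintro ⟨⟨h1, h2, h3⟩, hwF⟩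
          refine ⟨h1, ?_, ?_⟩
          · intro v hv
            have := h2 hv
            simp only [mem_union, mem_insert] at this ⊢
            rcases this with h | rfl | h
            · exact Or.inl h
            · exact absurd hv hwF
            · exact Or.inr h
          · intro A hA
            refine le_min (h3 A (hA.trans (subset_insert w E'))) ?_
            refine le_trans ?_ (h3 (insert w A) (insert_subset_insert w hA))
            exact_mod_cast card_le_card (inter_subset_inter_left (subset_insert w A))
        · rintro ⟨h1, h2, h3⟩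
          have hwF : w ∉ F := by
            intro hwF
            rcases mem_union.1 (h2 hwF) with h | h
            · exact hwY h
            · exact hw h
          refine ⟨⟨h1, ?_, ?_⟩, hwF⟩
          · exact h2.trans (union_subset_union_right (subset_insert w E'))
          · intro A hA
            have hA' : A.erase w ⊆ E' := by
              intro v hv
              rw [mem_erase] at hv
              exact (mem_insert.1 (hA hv.2)).resolve_left hv.1
            have h4 := h3 (A.erase w) hA'
            have h5 : F ∩ A = F ∩ A.erase w := by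
              ext v
              simp only [mem_inter, mem_erase]
              constructor
              · rintro ⟨h1, h2⟩
                exact ⟨h1, fun h => hwF (h ▸ h1), h2⟩
              · rintro ⟨h1, _, h2⟩
                exact ⟨h1, h2⟩
            rw [h5]
            by_cases hwA : w ∈ A
            · have h6 := h4.trans (min_le_right _ _)
              rwa [insert_erase hwA] at h6
            · have h6 := h4.trans (min_le_left _ _)
              rwa [erase_eq_of_notMem hwA] at h6 ⊢
      have e1 : PM Y (insert w E') h \ 𝓐 =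
          PM (insert w Y) E' (fun A => min (h A) (h (insert w A) - 1)) := by
        ext F
        constructor
        · rintro ⟨⟨h1, h2, h3⟩, hF⟩
          have hwF : w ∈ F := by
            by_contra hwF
            exact hF ⟨⟨h1, h2, h3⟩, hwF⟩
          refine ⟨insert_subset hwF h1, ?_, ?_⟩
          · intro v hv
            have := h2 hv
            simp only [mem_union, mem_insert] at this ⊢
            tauto
          · intro A hA
            refine le_min (h3 A (hA.trans (subset_insert w E'))) ?_
            have h4 := h3 (insert w A) (insert_subset_insert w hA)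
            have h5 : F ∩ insert w A = insert w (F ∩ A) := by
              rw [inter_insert_of_mem hwF]
            rw [h5, card_insert_of_notMem] at h4
            · push_cast at h4
              linarith
            · intro hmem
              exact hw (hA (mem_inter.1 hmem).2)
        · rintro ⟨h1, h2, h3⟩
          have hwF : w ∈ F := h1 (mem_insert_self w Y)
          refine ⟨⟨(subset_insert w Y).trans h1, ?_, ?_⟩, fun h => h.2 hwF⟩
          · intro v hv
            have := h2 hv
            simp only [mem_union, mem_insert] at this ⊢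
            tauto
          · intro A hA
            have hA' : A.erase w ⊆ E' := by
              intro v hv
              rw [mem_erase] at hv
              exact (mem_insert.1 (hA hv.2)).resolve_left hv.1
            have h4 := h3 (A.erase w) hA'
            by_cases hwA : w ∈ A
            · have h6 := h4.trans (min_le_right _ _)
              rw [insert_erase hwA] at h6
              have h5 : F ∩ A = insert w (F ∩ A.erase w) := by
                rw [← inter_insert_of_mem hwF, insert_erase hwA]
              rw [h5, card_insert_of_notMem (by simp)]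
              push_cast
              linarith
            · have h6 := h4.trans (min_le_left _ _)
              rwa [erase_eq_of_notMem hwA] at h6
      have hunion : ∀ A B : Finset (Fin n), insert w A ∪ B = insert w (A ∪ B) := fun A B =>
        insert_union w A B
      have hunion' : ∀ A B : Finset (Fin n), A ∪ insert w B = insert w (A ∪ B) := fun A B =>
        union_insert w A B
      refine Van.union (𝓐 := 𝓐) (PM_conv _ _ _) (fun F hF => hF.1) ?_ ?_ ?_
      · intro A B hAB hA hB
        exact ⟨hA, fun hwA => hB.2 (hAB hwA)⟩
      · rw [e0]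
        have := ih Y (fun A => min (h A) (h (insert w A))) hdis' ((min_le_left _ _).trans h0) ?_
        · refine this.mono ?_
          rw [min_eq_right hcase]
        · intro A hA B hB
          have hA' := hA.trans (subset_insert w E')
          have hB' := hB.trans (subset_insert w E')
          have hA'' := insert_subset_insert w hA
          have hB'' := insert_subset_insert w hB
          have hwA : w ∉ A := fun h => hw (hA h)
          have hwB : w ∉ B := fun h => hw (hB h)
          have s1 := hsub A hA' B hB'
          have s2 := hsub _ hA'' B hB'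
          have s3 := hsub A hA' _ hB''
          have s4 := hsub _ hA'' _ hB''
          rw [hunion, insert_inter_of_notMem hwB] at s2
          rw [hunion', inter_insert_of_notMem hwA] at s3
          rw [← insert_union_distrib, ← insert_inter_distrib] at s4
          rcases min_choice (h A) (h (insert w A)) with e1 | e1 <;>
          rcases min_choice (h B) (h (insert w B)) with e2 | e2 <;>
          rw [e1, e2]
          · exact le_trans (add_le_add (min_le_left _ _) (min_le_left _ _)) s1
          · exact le_trans (add_le_add (min_le_right _ _) (min_le_left _ _)) s3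
          · exact le_trans (add_le_add (min_le_right _ _) (min_le_left _ _)) s2
          · exact le_trans (add_le_add (min_le_right _ _) (min_le_right _ _)) s4
      · rw [e1]
        have hdis2 : Disjoint (insert w Y) E' := by
          rw [Finset.disjoint_insert_left]
          exact ⟨hw, hdis'⟩
        have := ih (insert w Y) (fun A => min (h A) (h (insert w A) - 1)) hdis2
          ((min_le_left _ _).trans h0) ?_
        · refine this.mono ?_
          rw [min_eq_right (by linarith), card_insert_of_notMem hwY]
          push_cast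
          linarith
        · intro A hA B hB
          have hA' := hA.trans (subset_insert w E')
          have hB' := hB.trans (subset_insert w E')
          have hA'' := insert_subset_insert w hA
          have hB'' := insert_subset_insert w hB
          have hwA : w ∉ A := fun h => hw (hA h)
          have hwB : w ∉ B := fun h => hw (hB h)
          have s1 := hsub A hA' B hB'
          have s2 := hsub _ hA'' B hB'
          have s3 := hsub A hA' _ hB''
          have s4 := hsub _ hA'' _ hB''
          rw [hunion, insert_inter_of_notMem hwB] at s2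
          rw [hunion', inter_insert_of_notMem hwA] at s3
          rw [← insert_union_distrib, ← insert_inter_distrib] at s4
          have m1 := min_le_left (h (A ∪ B)) (h (insert w (A ∪ B)) - 1)
          have m2 := min_le_right (h (A ∪ B)) (h (insert w (A ∪ B)) - 1)
          have m3 := min_le_left (h (A ∩ B)) (h (insert w (A ∩ B)) - 1)
          have m4 := min_le_right (h (A ∩ B)) (h (insert w (A ∩ B)) - 1)
          rcases min_choice (h A) (h (insert w A) - 1) with e1 | e1 <;>
          rcases min_choice (h B) (h (insert w B) - 1) with e2 | e2 <;>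
          rw [e1, e2] <;> linarith

end Pool.Agent.H48.E15
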