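import Pool.Agent.H48.E15.Hom
import Pool.Agent.H48.E15.Cuts

set_option autoImplicit false
set_option linter.unusedSimpArgs false

namespace Pool.Agent.H48.E15

open Finset

variable {n : ℕ} {G : SimpleGraph (Fin n)} {K : Type} [Field K]

/-- the cut function of `b - 1_F` -/
noncomputable def cF (G : SimpleGraph (Fin n)) (b : Fin n → ℤ) (F T : Finset (Fin n)) : ℤ :=
  cc G b T - ∑ v ∈ F, wt G T v

/-- `b - 1_F` -/
noncomputable def aF (b : Fin n → ℤ) (F : Finset (Fin n)) (v : Fin n) : ℤ :=
  b v - if v ∈ F then 1 else 0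

lemma cF_eq (b : Fin n → ℤ) (F T : Finset (Fin n)) : cF G b F T = cc G (aF b F) T := by
  unfold cF cc aF
  have : ∑ v ∈ F, wt G T v = ∑ v, (if v ∈ F then wt G T v else 0) := by
    rw [← sum_filter]
    congr 1
    ext v; simp
  rw [this, ← sum_sub_distrib]
  refine sum_congr rfl fun v _ => ?_
  split_ifs <;> ring

lemma aF_nonneg {b : Fin n → ℤ} (hb : ∀ v, 0 ≤ b v) {F : Finset (Fin n)}
    (hF : ∀ v ∈ F, 1 ≤ b v) (v : Fin n) : 0 ≤ aF b F v := by
  unfold aF
  by_cases h : v ∈ F
  · rw [if_pos h]; have := hF v h; linarith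
  · rw [if_neg h]; have := hb v; linarith

lemma cF_union {b : Fin n → ℤ} {A B T : Finset (Fin n)} (h : Disjoint A B) :
    cF G b (A ∪ B) T = cF G b A T - ∑ v ∈ B, wt G T v := by
  unfold cF
  rw [sum_union h]; ring

lemma cF_anti {b : Fin n → ℤ} {A B T : Finset (Fin n)} (h : A ⊆ B) :
    cF G b B T ≤ cF G b A T := by
  unfold cF
  have := sum_le_sum_of_subset_of_nonneg (f := fun v => wt G T v) h
    (fun v _ _ => wt_nonneg T v)
  linarith

lemma cF_submod {b : Fin n → ℤ} (hb : ∀ v, 0 ≤ b v) {F : Finset (Fin n)}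
    (hF : ∀ v ∈ F, 1 ≤ b v) (A B : Finset (Fin n)) :
    cF G b F (A ∪ B) + cF G b F (A ∩ B) ≤ cF G b F A + cF G b F B := by
  simp only [cF_eq]
  exact cc_submod (aF_nonneg hb hF) A B

/-- `T` is the largest minimiser of `cF G b F` among the subsets of `W` -/
def IsMM (G : SimpleGraph (Fin n)) (b : Fin n → ℤ) (W F T : Finset (Fin n)) : Prop :=
  T ⊆ W ∧ (∀ T1 ⊆ W, cF G b F T ≤ cF G b F T1) ∧
    (∀ T1 ⊆ W, cF G b F T1 ≤ cF G b F T → T1 ⊆ T)

lemma IsMM.unique {b : Fin n → ℤ} {W F T T' : Finset (Fin n)} (h : IsMM G b W F T)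
    (h' : IsMM G b W F T') : T = T' :=
  Subset.antisymm (h'.2.2 T h.1 (h.2.1 T' h'.1)) (h.2.2 T' h'.1 (h'.2.1 T h.1))

lemma exists_IsMM {b : Fin n → ℤ} (hb : ∀ v, 0 ≤ b v) {F : Finset (Fin n)}
    (hF : ∀ v ∈ F, 1 ≤ b v) (W : Finset (Fin n)) : ∃ T, IsMM G b W F T := by
  obtain ⟨T0, hT0, hmin⟩ := Finset.exists_min_image W.powerset (fun T => cF G b F T)
    ⟨∅, by simp⟩
  obtain ⟨T, hT, hmax⟩ := Finset.exists_max_image
    (W.powerset.filter fun T => cF G b F T = cF G b F T0) (fun T => T.card)
    ⟨T0, by rw [mem_filter]; exact ⟨hT0, rfl⟩⟩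
  rw [mem_filter, mem_powerset] at hT
  refine ⟨T, hT.1, ?_, ?_⟩
  · intro T1 hT1
    rw [hT.2]
    exact hmin T1 (mem_powerset.2 hT1)
  · intro T1 hT1 hle
    have h1 := cF_submod (G := G) hb hF T T1
    have h2 : cF G b F T0 ≤ cF G b F (T ∩ T1) :=
      hmin _ (mem_powerset.2 (inter_subset_left.trans hT.1))
    have h3 : cF G b F T0 ≤ cF G b F (T ∪ T1) :=
      hmin _ (mem_powerset.2 (union_subset hT.1 hT1))
    have h4 : cF G b F (T ∪ T1) = cF G b F T0 := by
      apply le_antisymm _ h3
      rw [hT.2] at hle h1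
      linarith
    have h5 := hmax (T ∪ T1) (by
      rw [mem_filter, mem_powerset]
      exact ⟨union_subset hT.1 hT1, h4⟩)
    have h6 : T = T ∪ T1 := Finset.eq_of_subset_of_card_le subset_union_left h5
    rw [h6]
    exact subset_union_right

/-- chosen largest minimiser -/
noncomputable def Tm (G : SimpleGraph (Fin n)) (b : Fin n → ℤ) (W F : Finset (Fin n)) :
    Finset (Fin n) := by
  classical
  exact if h : ∃ T, IsMM G b W F T then h.choose else ∅

lemma Tm_spec {b : Fin n → ℤ} (hb : ∀ v, 0 ≤ b v) {F : Finset (Fin n)}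
    (hF : ∀ v ∈ F, 1 ≤ b v) (W : Finset (Fin n)) : IsMM G b W F (Tm G b W F) := by
  unfold Tm
  rw [dif_pos (exists_IsMM hb hF W)]
  exact (exists_IsMM hb hF W).choose_spec

/-- the local description of the upper Koszul complex near the edge `xy` -/
def LL (G : SimpleGraph (Fin n)) (b : Fin n → ℤ) (x y : Fin n) (m : ℤ) :
    Set (Finset (Fin n)) :=
  {F | (∀ v ∈ F, 1 ≤ b v) ∧ (∀ T ⊆ WW G x y, m ≤ cF G b F T) ∧
    (∀ T, Ind G T → x ∈ T → m ≤ cF G b F T) ∧ (∀ T, Ind G T → y ∈ T → m ≤ cF G b F T)}

lemma LL_down {b : Fin n → ℤ} {x y : Fin n} {m : ℤ} {A B : Finset (Fin n)} (h : A ⊆ B)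
    (hB : B ∈ LL G b x y m) : A ∈ LL G b x y m :=
  ⟨fun v hv => hB.1 v (h hv), fun T hT => (hB.2.1 T hT).trans (cF_anti h),
    fun T hT hx => (hB.2.2.1 T hT hx).trans (cF_anti h),
    fun T hT hx => (hB.2.2.2 T hT hx).trans (cF_anti h)⟩

lemma sum_inter_pair {x y : Fin n} (hxy : x ≠ y) (F : Finset (Fin n)) (w : Fin n → ℤ) :
    ∑ v ∈ F ∩ {x, y}, w v = (if x ∈ F then w x else 0) + (if y ∈ F then w y else 0) := by
  by_cases h1 : x ∈ F <;> by_cases h2 : y ∈ F
  · rw [inter_insert_of_mem h1, inter_singleton_of_mem h2, if_pos h1, if_pos h2,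
      sum_insert (by simpa using hxy), sum_singleton]
  · rw [inter_insert_of_mem h1, inter_singleton_of_notMem h2, if_pos h1, if_neg h2]
    simp
  · rw [inter_insert_of_notMem h1, inter_singleton_of_mem h2, if_neg h1, if_pos h2,
      sum_singleton, zero_add]
  · rw [inter_insert_of_notMem h1, inter_singleton_of_notMem h2, if_neg h1, if_neg h2]
    simp

/-- data for the local analysis -/
structure Loc (G : SimpleGraph (Fin n)) (b : Fin n → ℤ) (x y : Fin n) : Prop where
  hb : ∀ v, 0 ≤ b v
  bx : 1 ≤ b x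
  hby : 1 ≤ b y
  adj : G.Adj x y
  ind : Ind G (WW G x y)

namespace Loc

variable {b : Fin n → ℤ} {x y : Fin n} (L : Loc G b x y)

include L

lemma ne : x ≠ y := L.adj.ne

omit L in
lemma x_notMem_W : x ∉ WW G x y := fun h => (mem_WW.1 h).1 rfl

omit L in
lemma y_notMem_W : y ∉ WW G x y := fun h => (mem_WW.1 h).2.1 rfl

omit L in
lemma x_notMem_nbW : x ∉ nb G (WW G x y) := by
  intro h
  obtain ⟨t, ht, hadj⟩ := (mem_nb G).1 h
  exact (mem_WW.1 ht).2.2.1 hadj.symm

omit L in
lemma y_notMem_nbW : y ∉ nb G (WW G x y) := by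
  intro h
  obtain ⟨t, ht, hadj⟩ := (mem_nb G).1 h
  exact (mem_WW.1 ht).2.2.2 hadj.symm

lemma indSub {T : Finset (Fin n)} (h : T ⊆ WW G x y) : Ind G T :=
  fun u hu v hv => L.ind u (h hu) v (h hv)

omit L in
lemma wt_x {T : Finset (Fin n)} (h : T ⊆ WW G x y) : wt G T x = 1 :=
  wt_of_not (fun h' => x_notMem_W (h h')) (fun h' => x_notMem_nbW (nb_mono h h'))

omit L in
lemma wt_y {T : Finset (Fin n)} (h : T ⊆ WW G x y) : wt G T y = 1 :=
  wt_of_not (fun h' => y_notMem_W (h h')) (fun h' => y_notMem_nbW (nb_mono h h'))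

/-- splitting off `x, y` -/
lemma cF_split (F T : Finset (Fin n)) : cF G b F T = cF G b (F \ {x, y}) T -
    ((if x ∈ F then wt G T x else 0) + (if y ∈ F then wt G T y else 0)) := by
  rw [← sum_inter_pair L.ne F (wt G T)]
  unfold cF
  rw [← sum_inter_add_sum_sdiff F {x, y} (fun v => wt G T v)]
  ring

lemma card_pair (F : Finset (Fin n)) : ((F ∩ {x, y}).card : ℤ) =
    (if x ∈ F then 1 else 0) + (if y ∈ F then 1 else 0) := by
  rw [← sum_inter_pair L.ne F (fun _ => 1)]
  simp

lemma cF_W (F : Finset (Fin n)) {T : Finset (Fin n)} (h : T ⊆ WW G x y) :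
    cF G b F T = cF G b (F \ {x, y}) T - ((F ∩ {x, y}).card : ℤ) := by
  rw [L.cF_split, L.card_pair, wt_x h, wt_y h]

lemma cF_x (F : Finset (Fin n)) {T : Finset (Fin n)} (h : Ind G T) (hx : x ∈ T) :
    cF G b F T = cF G b (F \ {x, y}) T - (if y ∈ F then 2 else 0) := by
  have h1 : wt G T x = 0 := wt_of_mem hx (h.notMem_nb hx)
  have h2 : wt G T y = 2 := wt_of_nb (fun hy => h x hx y hy L.adj) ((mem_nb G).2 ⟨x, hx, L.adj⟩)
  rw [L.cF_split, h1, h2]
  simp

lemma cF_y (F : Finset (Fin n)) {T : Finset (Fin n)} (h : Ind G T) (hy : y ∈ T) :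
    cF G b F T = cF G b (F \ {x, y}) T - (if x ∈ F then 2 else 0) := by
  have h1 : wt G T y = 0 := wt_of_mem hy (h.notMem_nb hy)
  have h2 : wt G T x = 2 := wt_of_nb (fun hx => h x hx y hy L.adj)
    ((mem_nb G).2 ⟨y, hy, L.adj.symm⟩)
  rw [L.cF_split, h1, h2]
  simp

/-- The main local statement for one class. -/
theorem van_class {m : ℤ} (hm : Even m) (T Y F0 : Finset (Fin n)) (hF0 : F0 ∈ LL G b x y m)
    (hMM : IsMM G b (WW G x y) (F0 \ {x, y}) T) (hY : (F0 \ {x, y}) \ T = Y) :
    Van K (∑ v, b v - m) {F | F ∈ LL G b x y m ∧ IsMM G b (WW G x y) (F \ {x, y}) T ∧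
      (F \ {x, y}) \ T = Y} := by
  classical
  obtain ⟨hTW, hmin0, hmax0⟩ := hMM
  have hTind : Ind G T := L.indSub hTW
  have hYT : Disjoint Y T := by rw [← hY]; exact sdiff_disjoint
  have hYF0 : Y ⊆ F0 := by rw [← hY]; exact sdiff_subset.trans sdiff_subset
  have hYb : ∀ v ∈ Y, 1 ≤ b v := fun v hv => hF0.1 v (hYF0 hv)
  have hxT : x ∉ T := fun h => x_notMem_W (hTW h)
  have hyT : y ∉ T := fun h => y_notMem_W (hTW h)
  have hxY : x ∉ Y := by rw [← hY]; simp
  have hyY : y ∉ Y := by rw [← hY]; simp
  -- basic decomposition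
  have dec : ∀ F' T1 : Finset (Fin n), F' \ T = Y →
      cF G b F' T1 = cF G b Y T1 - ∑ v ∈ F' ∩ T, wt G T1 v := by
    intro F' T1 hF'
    unfold cF
    rw [← sum_inter_add_sum_sdiff F' T (fun v => wt G T1 v), hF']
    ring
  have decSup : ∀ F' T1 : Finset (Fin n), F' \ T = Y → Ind G T1 → T ⊆ T1 →
      cF G b F' T1 = cF G b Y T1 := by
    intro F' T1 hF' h1 h2
    rw [dec F' T1 hF', sum_eq_zero, sub_zero]
    intro v hv
    have hvT : v ∈ T1 := h2 (mem_inter.1 hv).2
    exact wt_of_mem hvT (h1.notMem_nb hvT)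
  have decSub : ∀ F' A : Finset (Fin n), F' \ T = Y → A ⊆ T →
      cF G b F' (T \ A) = cF G b Y (T \ A) - ((F' ∩ A).card : ℤ) := by
    intro F' A hF' hA
    rw [dec F' _ hF']
    congr 1
    have : ∑ v ∈ F' ∩ T, wt G (T \ A) v = ∑ v ∈ F' ∩ T, (if v ∈ A then 1 else 0) := by
      refine sum_congr rfl fun v hv => ?_
      have hvT := (mem_inter.1 hv).2
      have hvn : v ∉ nb G (T \ A) := fun h => hTind.notMem_nb hvT (nb_mono sdiff_subset h)
      by_cases hvA : v ∈ A
      · rw [if_pos hvA, wt_of_not (by simp [hvA]) hvn]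
      · rw [if_neg hvA, wt_of_mem (by simp [hvA, hvT]) hvn]
    rw [this, ← sum_filter]
    simp only [sum_const, nsmul_eq_mul, mul_one]
    congr 2
    ext v
    simp only [mem_filter, mem_inter]
    constructor
    · rintro ⟨⟨h1, _⟩, h2⟩; exact ⟨h1, h2⟩
    · rintro ⟨h1, h2⟩; exact ⟨⟨h1, hA h2⟩, h2⟩
  set h : Finset (Fin n) → ℤ := fun A => cF G b Y (T \ A) - cF G b Y T with hh
  set κ : ℤ := cF G b Y T - m with hκ
  -- S1
  have S1 : ∀ F', IsMM G b (WW G x y) F' T → F' \ T = Y → F' ∈ PM Y T h := by
    intro F' hF' hFY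
    refine ⟨?_, ?_, ?_⟩
    · rw [← hFY]; exact sdiff_subset
    · intro v hv
      by_cases hvT : v ∈ T
      · exact mem_union_right _ hvT
      · exact mem_union_left _ (by rw [← hFY]; exact mem_sdiff.2 ⟨hv, hvT⟩)
    · intro A hA
      have h1 := hF'.2.1 (T \ A) (sdiff_subset.trans hTW)
      rw [decSub F' A hFY hA, decSup F' T hFY hTind subset_rfl] at h1
      simp only [hh]
      linarith
  -- S2
  have PMsd : ∀ F', F' ∈ PM Y T h → F' \ T = Y := by
    intro F' hF'
    ext v
    simp only [mem_sdiff]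
    constructor
    · rintro ⟨h1, h2⟩
      exact (mem_union.1 (hF'.2.1 h1)).resolve_right h2
    · intro h1
      exact ⟨hF'.1 h1, fun h2 => Finset.disjoint_left.1 hYT h1 h2⟩
  have S2 : ∀ F', F' ∈ PM Y T h → ∀ v ∈ F', 1 ≤ b v := by
    intro F' hF' v hv
    rcases mem_union.1 (hF'.2.1 hv) with hvY | hvT
    · exact hYb v hvY
    · have h1 := hF'.2.2 {v} (by simpa using hvT)
      rw [inter_singleton_of_mem hv, card_singleton] at h1
      have h2 : h {v} ≤ b v := by
        simp only [hh, cF_eq]
        unfold cc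
        rw [← sum_sub_distrib]
        have hvY : v ∉ Y := fun h => Finset.disjoint_left.1 hYT h hvT
        have h3 : b v = ∑ u, (if u = v then aF b Y v else 0) := by
          simp [aF, hvY]
        rw [h3]
        refine sum_le_sum fun u _ => ?_
        have hau := aF_nonneg L.hb hYb u
        by_cases huv : u = v
        · subst huv
          rw [if_pos rfl, ← mul_sub]
          have e1 : wt G T u = 0 := wt_of_mem hvT (hTind.notMem_nb hvT)
          have e2 : wt G (T \ {u}) u = 1 := wt_of_not (by simp)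
            (fun h => hTind.notMem_nb hvT (nb_mono sdiff_subset h))
          rw [e1, e2]; linarith
        · rw [if_neg huv, ← mul_sub]
          refine mul_nonpos_of_nonneg_of_nonpos hau ?_
          unfold wt
          have e1 : u ∈ T \ {v} ↔ u ∈ T := by simp [huv]
          have e2 : u ∈ nb G (T \ {v}) → u ∈ nb G T := fun h => nb_mono sdiff_subset h
          simp only [e1]
          by_cases e3 : u ∈ nb G (T \ {v})
          · simp [e3, e2 e3]
          · simp only [e3, if_false]
            split_ifs <;> norm_num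
      have h3 : (1 : ℤ) ≤ h {v} := by exact_mod_cast h1
      linarith
  -- S3
  have S3 : ∀ F', F' ∈ PM Y T h → IsMM G b (WW G x y) F' T := by
    intro F' hF'
    have hFY := PMsd F' hF'
    have hFb := S2 F' hF'
    have key : ∀ T1 ⊆ WW G x y, cF G b F' T ≤ cF G b F' (T1 ∪ T) ∧
        cF G b F' (T1 ∪ T) ≤ cF G b F' T1 ∧
        (cF G b F' (T1 ∪ T) ≤ cF G b F' T → T1 ⊆ T) := by
      intro T1 hT1
      have hU : T1 ∪ T ⊆ WW G x y := union_subset hT1 hTW
      have hUi : Ind G (T1 ∪ T) := L.indSub hU
      have e1 : cF G b F' (T1 ∪ T) = cF G b (F0 \ {x, y}) (T1 ∪ T) := by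
        rw [decSup F' _ hFY hUi subset_union_right, decSup _ _ hY hUi subset_union_right]
      have e2 : cF G b F' T = cF G b (F0 \ {x, y}) T := by
        rw [decSup F' _ hFY hTind subset_rfl, decSup _ _ hY hTind subset_rfl]
      refine ⟨?_, ?_, ?_⟩
      · rw [e1, e2]; exact hmin0 _ hU
      · have h1 := cF_submod (G := G) L.hb hFb T1 T
        have h2 : cF G b F' T ≤ cF G b F' (T1 ∩ T) := by
          have e3 : T1 ∩ T = T \ (T \ T1) := by
            ext v; simp only [mem_inter, mem_sdiff]; tauto
          rw [e3, decSub F' (T \ T1) hFY sdiff_subset, decSup F' T hFY hTind subset_rfl]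
          have h3 := hF'.2.2 (T \ T1) sdiff_subset
          simp only [hh] at h3
          linarith
        linarith
      · intro h1
        rw [e1, e2] at h1
        exact subset_union_left.trans (hmax0 _ hU h1)
    refine ⟨hTW, fun T1 hT1 => (key T1 hT1).1.trans (key T1 hT1).2.1, fun T1 hT1 hle => ?_⟩
    exact (key T1 hT1).2.2 ((key T1 hT1).2.1.trans hle)
  -- the side conditions
  set Px : Prop := ∀ T1, Ind G T1 → x ∈ T1 → T ⊆ T1 → m + 2 ≤ cF G b Y T1 with hPx
  set Py : Prop := ∀ T1, Ind G T1 → y ∈ T1 → T ⊆ T1 → m + 2 ≤ cF G b Y T1 with hPy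
  have Px0 : ∀ T1, Ind G T1 → x ∈ T1 → T ⊆ T1 → m ≤ cF G b Y T1 := by
    intro T1 h1 h2 h3
    have h4 := hF0.2.2.1 T1 h1 h2
    have h5 := cF_anti (G := G) (b := b) (T := T1) (sdiff_subset : F0 \ {x, y} ⊆ F0)
    rw [decSup _ T1 hY h1 h3] at h5
    linarith
  have Py0 : ∀ T1, Ind G T1 → y ∈ T1 → T ⊆ T1 → m ≤ cF G b Y T1 := by
    intro T1 h1 h2 h3
    have h4 := hF0.2.2.2 T1 h1 h2
    have h5 := cF_anti (G := G) (b := b) (T := T1) (sdiff_subset : F0 \ {x, y} ⊆ F0)
    rw [decSup _ T1 hY h1 h3] at h5
    linarith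
  have hκ0 : 0 ≤ κ := by
    have h4 := hF0.2.1 T hTW
    have h5 := cF_anti (G := G) (b := b) (T := T) (sdiff_subset : F0 \ {x, y} ⊆ F0)
    rw [decSup _ T hY hTind subset_rfl] at h5
    linarith
  set 𝓒 : Set (Finset (Fin n)) := {F | F \ {x, y} ∈ PM Y T h ∧ ((F ∩ {x, y}).card : ℤ) ≤ κ ∧
    (y ∈ F → Px) ∧ (x ∈ F → Py)} with h𝓒
  have S4 : {F | F ∈ LL G b x y m ∧ IsMM G b (WW G x y) (F \ {x, y}) T ∧
      (F \ {x, y}) \ T = Y} = 𝓒 := by
    ext F
    constructor
    · rintro ⟨h1, h2, h3⟩
      refine ⟨S1 _ h2 h3, ?_, ?_, ?_⟩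
      · have h4 := h1.2.1 T hTW
        rw [L.cF_W F hTW, decSup _ T h3 hTind subset_rfl] at h4
        linarith
      · intro hyF T1 e1 e2 e3
        have h4 := h1.2.2.1 T1 e1 e2
        rw [L.cF_x F e1 e2, decSup _ T1 h3 e1 e3, if_pos hyF] at h4
        linarith
      · intro hxF T1 e1 e2 e3
        have h4 := h1.2.2.2 T1 e1 e2
        rw [L.cF_y F e1 e2, decSup _ T1 h3 e1 e3, if_pos hxF] at h4
        linarith
    · rintro ⟨h1, h2, h3, h4⟩
      have hFY := PMsd _ h1
      have hMM := S3 _ h1
      have hFb' := S2 _ h1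
      have hFb : ∀ v ∈ F, 1 ≤ b v := by
        intro v hv
        by_cases hvx : v = x
        · rw [hvx]; exact L.bx
        by_cases hvy : v = y
        · rw [hvy]; exact L.hby
        exact hFb' v (by simp [hv, hvx, hvy])
      have hmin : ∀ T1 ⊆ WW G x y, cc G (aF b (F \ {x, y})) T ≤
          cc G (aF b (F \ {x, y})) T1 := by
        intro T1 hT1
        have := hMM.2.1 T1 hT1
        rwa [cF_eq, cF_eq] at this
      refine ⟨⟨hFb, ?_, ?_, ?_⟩, hMM, hFY⟩
      · intro T1 hT1
        rw [L.cF_W F hT1]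
        have e1 := hMM.2.1 T1 hT1
        rw [decSup _ T hFY hTind subset_rfl] at e1
        linarith
      · intro T1 e1 e2
        rw [L.cF_x F e1 e2]
        obtain ⟨T2, g1, g2, g3, g4⟩ := lemmaA (aF_nonneg L.hb hFb') L.ind x_notMem_nbW hTW
          hmin e1 e2
        rw [← cF_eq, ← cF_eq, decSup _ T2 hFY g1 g3] at g4
        by_cases hyF : y ∈ F
        · rw [if_pos hyF]
          have := h3 hyF T2 g1 g2 g3
          linarith
        · rw [if_neg hyF]
          have := Px0 T2 g1 g2 g3
          linarith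
      · intro T1 e1 e2
        rw [L.cF_y F e1 e2]
        obtain ⟨T2, g1, g2, g3, g4⟩ := lemmaA (aF_nonneg L.hb hFb') L.ind y_notMem_nbW hTW
          hmin e1 e2
        rw [← cF_eq, ← cF_eq, decSup _ T2 hFY g1 g3] at g4
        by_cases hxF : x ∈ F
        · rw [if_pos hxF]
          have := h4 hxF T2 g1 g2 g3
          linarith
        · rw [if_neg hxF]
          have := Py0 T2 g1 g2 g3
          linarith
  rw [S4]
  -- polymatroid data
  have hsub : ∀ A ⊆ T, ∀ B ⊆ T, h (A ∪ B) + h (A ∩ B) ≤ h A + h B := by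
    intro A hA B hB
    simp only [hh]
    have h1 := cF_submod (G := G) L.hb hYb (T \ A) (T \ B)
    have e1 : (T \ A) ∪ (T \ B) = T \ (A ∩ B) := by
      rw [sdiff_inter_distrib_right]
    have e2 : (T \ A) ∩ (T \ B) = T \ (A ∪ B) := by
      rw [sdiff_union_distrib]
    rw [e1, e2] at h1
    linarith
  have h0 : h ∅ ≤ 0 := by simp [hh]
  have hsum : (Y.card : ℤ) + h T = ∑ v, b v - m - κ := by
    simp only [hh, hκ]
    have e1 : cF G b Y ∅ = ∑ v, b v - Y.card := by
      unfold cF cc
      have e2 : ∀ v, wt G (∅ : Finset (Fin n)) v = 1 := fun v =>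
        wt_of_not (by simp) (by rw [mem_nb]; simp)
      simp [e2]
    rw [show T \ T = ∅ from Finset.sdiff_self T, e1]
    ring
  have toggX : ∀ F : Finset (Fin n), x ∉ F → (insert x F) \ {x, y} = F \ {x, y} := by
    intro F hxF
    ext v
    simp only [mem_sdiff, mem_insert, mem_singleton, not_or]
    tauto
  have toggY : ∀ F : Finset (Fin n), y ∉ F → (insert y F) \ {x, y} = F \ {x, y} := by
    intro F hxF
    ext v
    simp only [mem_sdiff, mem_insert, mem_singleton, not_or]
    tauto
  have hne := L.ne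
  rcases eq_or_lt_of_le hκ0 with hκe | hκp
  · -- κ = 0
    have e : 𝓒 = PM Y T h := by
      ext F
      constructor
      · rintro ⟨h1, h2, -, -⟩
        rw [← hκe] at h2
        have h3 : F ∩ {x, y} = ∅ := by
          rw [← card_eq_zero]
          have : ((F ∩ {x, y}).card : ℤ) = 0 := le_antisymm h2 (by positivity)
          exact_mod_cast this
        have h4 : F \ {x, y} = F := by
          rw [Finset.sdiff_eq_self_iff_disjoint, Finset.disjoint_iff_inter_eq_empty]
          exact h3
        rwa [h4] at h1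
      · intro h1
        have hxF : x ∉ F := by
          intro hxF
          rcases mem_union.1 (h1.2.1 hxF) with h | h
          · exact hxY h
          · exact hxT h
        have hyF : y ∉ F := by
          intro hyF
          rcases mem_union.1 (h1.2.1 hyF) with h | h
          · exact hyY h
          · exact hyT h
        have h4 : F \ {x, y} = F := by
          rw [Finset.sdiff_eq_self_iff_disjoint]
          simp [hxF, hyF]
        refine ⟨by rwa [h4], ?_, fun h => absurd h hyF, fun h => absurd h hxF⟩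
        rw [L.card_pair, if_neg hxF, if_neg hyF]
        exact hκ0
    rw [e]
    refine (Van.polymatroid T Y h hYT h0 hsub).mono ?_
    rw [hsum, ← hκe]; linarith
  · -- κ ≥ 1: parity lemma
    have hB : Px ∨ Py := by
      by_contra hcon
      rw [not_or] at hcon
      obtain ⟨hnx, hny⟩ := hcon
      simp only [hPx, not_forall, not_le] at hnx
      simp only [hPy, not_forall, not_le] at hny
      obtain ⟨T1, a1, a2, a3, a4⟩ := hnx
      obtain ⟨T2, b1, b2, b3, b4⟩ := hny
      rw [← decSup _ T1 hY a1 a3, cF_eq] at a4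
      rw [← decSup _ T2 hY b1 b3, cF_eq] at b4
      obtain ⟨T3, c1, c2⟩ := lemmaB (m := m)
        (aF_nonneg L.hb (F := F0 \ {x, y}) (fun v hv => hF0.1 v (sdiff_subset hv)))
        L.adj L.ind a1 b1 a2 b2 (by linarith) (by linarith) hm
      have c3 := hmin0 T3 c1
      rw [decSup _ T hY hTind subset_rfl, cF_eq _ _ T3] at c3
      linarith
    by_cases hpx : Px
    · by_cases hpy : Py
      · by_cases hκ2 : 2 ≤ κ
        · -- full: toggle x
          refine Van.toggle x fun F hxF => ?_
          simp only [h𝓒, Set.mem_ofPred_eq]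
          rw [toggX F hxF]
          have e1 : ((F ∩ {x, y}).card : ℤ) ≤ κ := by
            rw [L.card_pair, if_neg hxF]; split_ifs <;> linarith
          have e2 : ((insert x F ∩ {x, y}).card : ℤ) ≤ κ := by
            rw [L.card_pair]; split_ifs <;> linarith
          simp only [e1, e2, hpx, hpy, implies_true, true_and, and_true]
        · have hκ1 : κ = 1 := by linarith [not_le.1 hκ2, Int.add_one_le_iff.2 hκp, Int.lt_iff_add_one_le.1 (not_le.1 hκ2)]
          set 𝓐 : Set (Finset (Fin n)) := {F | F ∈ 𝓒 ∧ y ∉ F} with h𝓐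
          have hconv : Conv 𝓒 := by
            intro A B C hAB hBC hA hC
            refine ⟨PM_conv _ _ _ _ _ _ (sdiff_subset_sdiff hAB subset_rfl)
              (sdiff_subset_sdiff hBC subset_rfl) hA.1 hC.1, ?_, fun _ => hpx, fun _ => hpy⟩
            refine le_trans ?_ hC.2.1
            exact_mod_cast card_le_card (inter_subset_inter_right hBC)
          refine Van.union (𝓐 := 𝓐) hconv (fun F hF => hF.1) ?_ ?_ ?_
          · intro A B hAB hA hB
            exact ⟨hA, fun hyA => hB.2 (hAB hyA)⟩
          · refine Van.toggle x fun F hxF => ?_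
            simp only [h𝓐, h𝓒, Set.mem_ofPred_eq]
            rw [toggX F hxF]
            have e3 : y ∉ insert x F ↔ y ∉ F := by
              simp only [mem_insert, not_or]
              exact ⟨fun h => h.2, fun h => ⟨fun h' => hne h'.symm, h⟩⟩
            rw [e3]
            constructor
            · rintro ⟨⟨e1, _, _, _⟩, e2⟩
              refine ⟨⟨e1, ?_, fun _ => hpx, fun _ => hpy⟩, e2⟩
              rw [L.card_pair, if_neg (e3.2 e2), if_pos (mem_insert_self _ _)]
              linarith
            · rintro ⟨⟨e1, _, _, _⟩, e2⟩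
              refine ⟨⟨e1, ?_, fun _ => hpx, fun _ => hpy⟩, e2⟩
              rw [L.card_pair, if_neg e2, if_neg hxF]
              linarith
          · have e : 𝓒 \ 𝓐 = PM (insert y Y) T h := by
              ext F
              constructor
              · rintro ⟨h1, h2⟩
                have hyF : y ∈ F := by
                  by_contra hyF
                  exact h2 ⟨h1, hyF⟩
                have hxF : x ∉ F := by
                  intro hxF
                  have := h1.2.1
                  rw [L.card_pair, if_pos hxF, if_pos hyF] at this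
                  linarith
                have hsd : F \ {x, y} = F.erase y := by
                  ext v
                  simp only [mem_sdiff, mem_insert, mem_singleton, not_or, mem_erase]
                  constructor
                  · rintro ⟨g1, g2, g3⟩; exact ⟨g3, g1⟩
                  · rintro ⟨g1, g2⟩
                    exact ⟨g2, fun h => hxF (h ▸ g2), g1⟩
                have h3 := h1.1
                rw [hsd] at h3
                refine ⟨?_, ?_, ?_⟩
                · rw [insert_subset_iff]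
                  exact ⟨hyF, h3.1.trans (erase_subset _ _)⟩
                · intro v hv
                  by_cases hvy : v = y
                  · rw [hvy]; simp
                  · have := h3.2.1 (mem_erase.2 ⟨hvy, hv⟩)
                    simp only [mem_union, mem_insert] at this ⊢
                    tauto
                · intro A hA
                  have := h3.2.2 A hA
                  have e4 : F.erase y ∩ A = F ∩ A := by
                    ext v
                    simp only [mem_inter, mem_erase]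
                    constructor
                    · rintro ⟨⟨g1, g2⟩, g3⟩; exact ⟨g2, g3⟩
                    · rintro ⟨g1, g2⟩
                      exact ⟨⟨fun h => hyT (h ▸ hA g2), g1⟩, g2⟩
                  rwa [e4] at this
              · intro h1
                have hyF : y ∈ F := h1.1 (mem_insert_self _ _)
                have hxF : x ∉ F := by
                  intro hxF
                  have := h1.2.1 hxF
                  simp only [mem_union, mem_insert] at this
                  rcases this with (h | h) | h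
                  · exact hne h
                  · exact hxY h
                  · exact hxT h
                have hsd : F \ {x, y} = F.erase y := by
                  ext v
                  simp only [mem_sdiff, mem_insert, mem_singleton, not_or, mem_erase]
                  constructor
                  · rintro ⟨g1, g2, g3⟩; exact ⟨g3, g1⟩
                  · rintro ⟨g1, g2⟩
                    exact ⟨g2, fun h => hxF (h ▸ g2), g1⟩
                refine ⟨⟨?_, ?_, fun _ => hpx, fun _ => hpy⟩, fun h => h.2 hyF⟩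
                · rw [hsd]
                  refine ⟨?_, ?_, ?_⟩
                  · intro v hv
                    exact mem_erase.2 ⟨fun h => hyY (h ▸ hv), h1.1 (mem_insert_of_mem hv)⟩
                  · intro v hv
                    have hv' := mem_erase.1 hv
                    have := h1.2.1 hv'.2
                    simp only [mem_union, mem_insert] at this ⊢
                    tauto
                  · intro A hA
                    refine le_trans ?_ (h1.2.2 A hA)
                    exact_mod_cast card_le_card (inter_subset_inter_right (erase_subset _ _))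
                · rw [L.card_pair, if_neg hxF, if_pos hyF, hκ1]
                  norm_num
            rw [e]
            have hdis : Disjoint (insert y Y) T := by
              rw [Finset.disjoint_insert_left]
              exact ⟨hyT, hYT⟩
            refine (Van.polymatroid T (insert y Y) h hdis h0 hsub).mono ?_
            rw [card_insert_of_notMem hyY]
            push_cast
            linarith
      · -- Px, ¬ Py : toggle y
        refine Van.toggle y fun F hyF => ?_
        simp only [h𝓒, Set.mem_ofPred_eq]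
        rw [toggY F hyF]
        have e3 : x ∈ insert y F ↔ x ∈ F := by
          simp only [mem_insert]
          exact ⟨fun h => h.resolve_left hne, fun h => Or.inr h⟩
        constructor
        · rintro ⟨e1, _, _, e4⟩
          have hxF : x ∉ F := fun h => hpy (e4 h)
          refine ⟨e1, ?_, fun _ => hpx, fun h => absurd (e3.1 h) hxF⟩
          rw [L.card_pair, if_neg (fun h => hxF (e3.1 h)), if_pos (mem_insert_self _ _)]
          linarith
        · rintro ⟨e1, _, _, e4⟩
          have hxF : x ∉ F := fun h => hpy (e4 (e3.2 h))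
          refine ⟨e1, ?_, fun _ => hpx, fun h => absurd h hxF⟩
          rw [L.card_pair, if_neg hxF, if_neg hyF]
          linarith
    · -- ¬ Px, Py : toggle x
      have hpy : Py := hB.resolve_left hpx
      refine Van.toggle x fun F hxF => ?_
      simp only [h𝓒, Set.mem_ofPred_eq]
      rw [toggX F hxF]
      have e3 : y ∈ insert x F ↔ y ∈ F := by
        simp only [mem_insert]
        exact ⟨fun h => h.resolve_left (fun h' => hne h'.symm), fun h => Or.inr h⟩
      constructor
      · rintro ⟨e1, _, e4, _⟩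
        have hyF : y ∉ F := fun h => hpx (e4 h)
        refine ⟨e1, ?_, fun h => absurd (e3.1 h) hyF, fun _ => hpy⟩
        rw [L.card_pair, if_neg (fun h => hyF (e3.1 h)), if_pos (mem_insert_self _ _)]
        linarith
      · rintro ⟨e1, _, e4, _⟩
        have hyF : y ∉ F := fun h => hpx (e4 (e3.2 h))
        refine ⟨e1, ?_, fun h => absurd h hyF, fun _ => hpy⟩
        rw [L.card_pair, if_neg hxF, if_neg hyF]
        linarith

/-- The local complex has no homology in sizes below `∑ b - m`. -/
theorem van_LL {m : ℤ} (hm : Even m) : Van K (∑ v, b v - m) (LL G b x y m) := by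
  classical
  set W := WW G x y with hW
  set cl : Finset (Fin n) → Finset (Fin n) × Finset (Fin n) := fun F =>
    (Tm G b W (F \ {x, y}), (F \ {x, y}) \ Tm G b W (F \ {x, y})) with hcl
  set ρ : Finset (Fin n) × Finset (Fin n) → ℤ := fun p => - cF G b p.2 p.1 with hρ
  have spec : ∀ F ∈ LL G b x y m, IsMM G b W (F \ {x, y}) (Tm G b W (F \ {x, y})) :=
    fun F hF => Tm_spec L.hb (fun v hv => hF.1 v (sdiff_subset hv)) W
  have hval : ∀ F ∈ LL G b x y m, cF G b ((F \ {x, y}) \ Tm G b W (F \ {x, y}))
      (Tm G b W (F \ {x, y})) = cF G b (F \ {x, y}) (Tm G b W (F \ {x, y})) := by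
    intro F hF
    have hT := spec F hF
    have hTi : Ind G (Tm G b W (F \ {x, y})) := L.indSub hT.1
    unfold cF
    rw [← sum_inter_add_sum_sdiff (F \ {x, y}) (Tm G b W (F \ {x, y}))
      (fun v => wt G (Tm G b W (F \ {x, y})) v)]
    rw [sum_eq_zero (s := (F \ {x, y}) ∩ Tm G b W (F \ {x, y})), zero_add]
    intro v hv
    have hvT := (mem_inter.1 hv).2
    exact wt_of_mem hvT (hTi.notMem_nb hvT)
  refine Van.classes cl ρ _ (LL G b x y m) le_rfl ?_ ?_ ?_
  · intro A B C _ hBC _ hC
    exact LL_down hBC hC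
  · intro A hA B hB hAB
    have hTA := spec A hA
    have hTB := spec B hB
    have vA := hval A hA
    have vB := hval B hB
    simp only [hcl, hρ]
    set A' := A \ {x, y} with hA'
    set B' := B \ {x, y} with hB'
    have hAB' : A' ⊆ B' := sdiff_subset_sdiff hAB subset_rfl
    set TA := Tm G b W A' with hTA'
    set TB := Tm G b W B' with hTB'
    rw [vA, vB]
    have h1 : cF G b B' TB ≤ cF G b B' TA := hTB.2.1 TA hTA.1
    have h2 : cF G b B' TA ≤ cF G b A' TA := cF_anti hAB'
    rcases lt_or_eq_of_le (h1.trans h2) with hlt | heq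
    · right; linarith
    · left
      have h3 : cF G b B' TA = cF G b A' TA := by linarith
      have h4 : TA ⊆ TB := hTB.2.2 TA hTA.1 (by linarith)
      have h5 : ∀ v ∈ B' \ A', v ∈ TA := by
        unfold cF at h3
        rw [← sum_sdiff hAB'] at h3
        have h6 : ∑ v ∈ B' \ A', wt G TA v = 0 := by linarith
        intro v hv
        have h7 := (sum_eq_zero_iff_of_nonneg (fun v _ => wt_nonneg TA v)).1 h6 v hv
        by_contra hvT
        unfold wt at h7
        rw [if_neg hvT] at h7
        split_ifs at h7 <;> omega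
      have hTBi : Ind G TB := L.indSub hTB.1
      have h6 : cF G b A' TB = cF G b B' TB := by
        unfold cF
        rw [← sum_sdiff hAB', sum_eq_zero (s := B' \ A'), zero_add]
        intro v hv
        have hvT := h4 (h5 v hv)
        exact wt_of_mem hvT (hTBi.notMem_nb hvT)
      have h7 : TB ⊆ TA := hTA.2.2 TB hTB.1 (by linarith)
      have h8 : TA = TB := Subset.antisymm h4 h7
      rw [← h8]
      refine Prod.ext rfl ?_
      ext v
      simp only [mem_sdiff]
      constructor
      · rintro ⟨g1, g2⟩; exact ⟨hAB' g1, g2⟩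
      · rintro ⟨g1, g2⟩
        refine ⟨?_, g2⟩
        by_contra g3
        exact g2 (h5 v (mem_sdiff.2 ⟨g1, g3⟩))
  · rintro ⟨T, Y⟩
    by_cases hne : ∃ F0, F0 ∈ LL G b x y m ∧ cl F0 = (T, Y)
    · obtain ⟨F0, hF0, hc0⟩ := hne
      simp only [hcl, Prod.mk.injEq] at hc0
      obtain ⟨hc1, hc2⟩ := hc0
      have hs := spec F0 hF0
      rw [hc1] at hs hc2
      have := L.van_class (K := K) hm T Y F0 hF0 hs hc2
      have e : {F | F ∈ LL G b x y m ∧ cl F = (T, Y)} = {F | F ∈ LL G b x y m ∧
          IsMM G b (WW G x y) (F \ {x, y}) T ∧ (F \ {x, y}) \ T = Y} := by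
        ext F
        simp only [Set.mem_ofPred_eq, hcl, Prod.mk.injEq]
        constructor
        · rintro ⟨g1, g2, g3⟩
          have g4 := spec F g1
          rw [g2] at g4 g3
          exact ⟨g1, g4, g3⟩
        · rintro ⟨g1, g2, g3⟩
          have g4 := (spec F g1).unique g2
          refine ⟨g1, g4, ?_⟩
          rw [g4]; exact g3
      rw [e]
      exact this
    · refine Van.empty fun F hF => hne ⟨F, hF.1, hF.2⟩

end Loc

end Pool.Agent.H48.E15
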